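import Pool.Agent.Run7.h766.MD.Incl

set_option autoImplicit false
set_option linter.unusedSectionVars false

/-!
# Graphs with few modules
-/

namespace Pool.Agent.Run7.h766.MD

open Finset Classical
open Pool.Agent.H234RC (Hypo NonIso Reconstructible)

variable {V K : Type} [Fintype V] [Fintype K]
variable {G H : SimpleGraph V} {c c' : V → K} {Q : SimpleGraph K} {π : V → Equiv.Perm V}

/-- a partition into modules -/
def IM {V K : Type} (G : SimpleGraph V) (c : V → K) : Prop :=
  ∀ x y z, c x = c y → c z ≠ c x → (G.Adj z x ↔ G.Adj z y)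

/-- the quotient graph -/
def quo {V K : Type} (G : SimpleGraph V) (c : V → K) : SimpleGraph K where
  Adj i j := i ≠ j ∧ ∃ x y, c x = i ∧ c y = j ∧ G.Adj x y
  symm := ⟨fun _ _ h => ⟨h.1.symm, by
    obtain ⟨x, y, hx, hy, h2⟩ := h.2
    exact ⟨y, x, hy, hx, h2.symm⟩⟩⟩
  loopless := ⟨fun _ h => h.1 rfl⟩

theorem quo_adj (hc : IM G c) (x y : V) (h : c x ≠ c y) :
    G.Adj x y ↔ (quo G c).Adj (c x) (c y) := by
  constructor
  · intro h2
    exact ⟨h, x, y, rfl, rfl, h2⟩
  · rintro ⟨_, x', y', hx, hy, h2⟩
    have h3 : G.Adj y' x := by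
      rw [← hc x' x y' hx (by rw [hx, hy]; exact h.symm)]
      exact h2.symm
    rw [← hc y' y x hy (by rw [hy]; exact h)]
    exact h3.symm

/-- the sizes of the classes -/
theorem chain_sum (s : K → ℕ) (h2 : ∀ k, 2 ≤ s k → ∃ k', s k' + 1 = s k) :
    2 * ∑ k, s k ≤ Fintype.card K * (Fintype.card K + 1) := by
  have att : ∀ d m, 1 ≤ m → (∃ k, s k = m + d) → ∃ k, s k = m := by
    intro d
    induction d with
    | zero =>
      intro m _ h
      exact h
    | succ d ih =>
      rintro m hm ⟨k, hk⟩
      obtain ⟨k', hk'⟩ := h2 k (by omega)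
      exact ih m hm ⟨k', by omega⟩
  have cnt : ∀ r k, r ≤ s k → r - 1 ≤ (univ.filter (fun k => s k < r)).card := by
    intro r k hr
    have h3 : Ico 1 r ⊆ (univ.filter (fun k => s k < r)).image s := by
      intro m hm
      rw [mem_Ico] at hm
      obtain ⟨k', hk'⟩ := att (s k - m) m hm.1 ⟨k, by omega⟩
      exact mem_image.mpr ⟨k', mem_filter.mpr ⟨mem_univ _, by omega⟩, hk'⟩
    have := (card_le_card h3).trans card_image_le
    rwa [Nat.card_Ico] at this
  have hle : ∀ k, s k ≤ Fintype.card K := by
    intro k
    have h3 := cnt (s k) k le_rfl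
    have h4 : univ.filter (fun k' => s k' < s k) ⊆ univ.erase k := by
      intro k' hk'
      rw [mem_filter] at hk'
      exact mem_erase.mpr ⟨fun e => by rw [e] at hk'; omega, mem_univ _⟩
    have h5 := card_le_card h4
    rw [card_erase_of_mem (mem_univ _), card_univ] at h5
    have h6 : 0 < Fintype.card K := Fintype.card_pos_iff.mpr ⟨k⟩
    omega
  have hs : ∀ k, s k = ∑ r ∈ range (Fintype.card K), if r + 1 ≤ s k then 1 else 0 := by
    intro k
    rw [← card_filter]
    have : (range (Fintype.card K)).filter (fun r => r + 1 ≤ s k) = range (s k) := by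
      ext r
      rw [mem_filter, mem_range, mem_range]
      have := hle k
      omega
    rw [this, card_range]
  have hlay : ∀ r ∈ range (Fintype.card K), (∑ k : K, if r + 1 ≤ s k then 1 else 0) ≤
      Fintype.card K - r := by
    intro r _
    rw [← card_filter]
    by_cases h : ∃ k, r + 1 ≤ s k
    · obtain ⟨k, hk⟩ := h
      have h3 := cnt (r + 1) k hk
      have h4 := card_filter_add_card_filter_not (s := (univ : Finset K)) (fun k => s k < r + 1)
      rw [card_univ] at h4
      have h5 : univ.filter (fun k => ¬ s k < r + 1) = univ.filter (fun k => r + 1 ≤ s k) := by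
        apply filter_congr
        intro k _
        omega
      rw [h5] at h4
      omega
    · push Not at h
      have : univ.filter (fun k => r + 1 ≤ s k) = ∅ := by
        rw [filter_eq_empty_iff]
        intro k _ hk
        have := h k
        omega
      rw [this, card_empty]
      omega
  have h3 : ∑ k, s k ≤ ∑ r ∈ range (Fintype.card K), (Fintype.card K - r) := by
    rw [sum_congr rfl (fun k _ => hs k), sum_comm]
    exact sum_le_sum hlay
  have h4 : ∀ n : ℕ, 2 * ∑ r ∈ range n, (n - r) = n * (n + 1) := by
    intro n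
    induction n with
    | zero => simp
    | succ n ih =>
      rw [sum_range_succ']
      have : ∑ k ∈ range n, (n + 1 - (k + 1)) = ∑ k ∈ range n, (n - k) := by
        apply sum_congr rfl
        intro k _
        omega
      rw [this, Nat.sub_zero, mul_add, ih]
      ring
  have h5 := h4 (Fintype.card K)
  omega

/-- prime quotient, at least two nontrivial classes, one of the two conditions -/
theorem two_classes (hQ : Pr Q) (hH : Hypo G H π) (hS : St G univ c Q)
    (hn : Fintype.card K + 3 ≤ Fintype.card V) (hw : 2 ≤ (NT c).card)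
    (hcond : (∃ x ∈ WW c, ∀ k, ty (fb c k) G ≠ ty ((fb c (c x)).erase x) G) ∨
      (AF Q).card < 2 ^ ((NT c).card - 1) * (univ.filter (fun α : Equiv.Perm K => Au Q α ∧
        ∀ k, ty (fb c (α k)) G = ty (fb c k) G)).card) : ¬ NonIso G H := by
  intro hN
  obtain ⟨c', hS'⟩ := recog hQ hH hS hn
  have hb : ∀ k, (fb c k).card < (WW c).card := by
    intro k
    obtain ⟨k1, hk1, hk1'⟩ := exists_mem_ne (by omega : 1 < (NT c).card) k
    rw [mem_NT] at hk1
    have h1 := fb_sub_WW k1 hk1
    by_cases h2 : 2 ≤ (fb c k).card
    · have h3 := card_le_card (union_subset (fb_sub_WW k h2) h1)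
      rw [card_union_of_disjoint (fb_disj c k k1 hk1'.symm)] at h3
      omega
    · have h3 := card_le_card h1
      omega
  rcases hcond with ⟨x, hx, hno⟩ | hlt
  · obtain ⟨_, _, _, _, i', hi'⟩ := step hQ hH hS hS' hN hb x hx
    exact hno i' hi'
  · have := many_aut hQ hH hS hS' hN hb (card_pos.mp (by omega))
    omega

/-- prime quotient, one nontrivial class -/
theorem one_class' (hQ : Pr Q) (hH : Hypo G H π) (hS : St G univ c Q)
    (hn : Fintype.card K + 3 ≤ Fintype.card V) (i : K) (hi : ∀ k, k ≠ i → (fb c k).card = 1)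
    (hbig : Fintype.card K ≤ (fb c i).card + 1) : ¬ NonIso G H := by
  obtain ⟨c', hS'⟩ := recog hQ hH hS hn
  have hsub : WW c ⊆ fb c i := by
    intro x hx
    have h1 := two_le_fb x hx
    rw [mem_fb]
    by_contra h
    rw [hi _ h] at h1
    omega
  have hsum := sum_fb c
  rw [← add_sum_erase univ _ (mem_univ i), sum_congr rfl (fun k hk => hi k
      (mem_erase.mp hk).1), sum_const, smul_eq_mul, mul_one, card_erase_of_mem (mem_univ _),
      card_univ] at hsum
  have hfb : 2 ≤ (fb c i).card := by omega
  have hcard := card_le_card (fb_sub_WW i hfb)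
  exact one_class hQ hH hS hS' hn i (card_le_card hsub) (by omega)

/-- the count for a prime quotient -/
theorem prime_count (hQ : Pr Q) (hH : Hypo G H π) (hS : St G univ c Q)
    (hn : Fintype.card K * (Fintype.card K + 1) < 2 * Fintype.card V) : ¬ NonIso G H := by
  have hq := hQ.1
  have hn3 : Fintype.card K + 3 ≤ Fintype.card V := by nlinarith
  obtain ⟨c', hS'⟩ := recog hQ hH hS hn3
  by_cases hb : ∀ k, (fb c k).card < (WW c).card
  · intro hN
    have h1 := chain_sum (fun k => (fb c k).card) (by
      intro k hk
      obtain ⟨x, hx⟩ := card_pos.mp (by omega : 0 < (fb c k).card)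
      have hxW := fb_sub_WW k hk hx
      obtain ⟨_, _, _, _, i', hi'⟩ := step hQ hH hS hS' hN hb x hxW
      have hcx : c x = k := (mem_fb _ _).mp hx
      refine ⟨i', ?_⟩
      have := congrArg sz hi'
      rw [sz_ty, sz_ty, hcx, card_erase_of_mem hx] at this
      omega)
    rw [sum_fb] at h1
    omega
  · push Not at hb
    obtain ⟨i, hi⟩ := hb
    apply one_class hQ hH hS hS' hn3 i hi
    -- the vertices in trivial classes
    have h1 : ((WW c)ᶜ).card ≤ Fintype.card K := by
      rw [← card_univ]
      apply card_le_card_of_injOn c (fun _ _ => mem_coe.mpr (mem_univ _))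
      intro x hx y hy hxy
      by_contra hne
      rw [mem_coe, mem_compl] at hx
      exact hx ((mem_WW x).mpr ⟨y, fun e => hne e.symm, hxy.symm⟩)
    rw [card_compl] at h1
    have h2 : (WW c).card ≤ Fintype.card V := by
      rw [← card_univ]
      exact card_le_univ _
    by_contra hcon
    have h3 : 2 * Fintype.card V + 4 ≤ 4 * Fintype.card K := by omega
    have h4 : 3 * Fintype.card K ≤ Fintype.card K * Fintype.card K :=
      Nat.mul_le_mul_right _ hq
    have h5 : Fintype.card K * (Fintype.card K + 1) =
        Fintype.card K * Fintype.card K + Fintype.card K := by ring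
    omega

/-- graphs with a cut with constant adjacency -/
theorem cut_univ (hH : Hypo G H π) (hn : 3 ≤ Fintype.card V) (A : Finset V) (hA1 : A.Nonempty)
    (hA2 : (univ \ A).Nonempty) (P : Prop) (hP : ∀ a ∈ A, ∀ b ∈ univ \ A, (G.Adj a b ↔ P)) :
    ¬ NonIso G H := by
  have h := cut_case hH univ A (by rw [card_univ]; exact hn) (fun _ _ _ _ => mem_univ _)
    (subset_univ _) hA1 hA2 P hP
  rw [ty_eq] at h
  obtain ⟨σ, _, h2⟩ := h
  exact fun hN => hN ⟨σ, fun x y => h2 x (mem_univ _) y (mem_univ _)⟩

/-- the general count -/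
theorem main_count (hH : Hypo G H π) (k : ℕ) (hk : 2 ≤ k) (c0 : V → Fin k)
    (hsur : Function.Surjective c0) (hIM : IM G c0) (hn : k * (k + 1) < 2 * Fintype.card V) :
    ¬ NonIso G H := by
  have hex : ∃ j, 2 ≤ j ∧ ∃ (K : Type) (_ : Fintype K) (c : V → K), Fintype.card K = j ∧
      Function.Surjective c ∧ IM G c := ⟨k, hk, Fin k, inferInstance, c0, by simp, hsur, hIM⟩
  have hmin := fun m => Nat.find_min hex (m := m)
  have hle : Nat.find hex ≤ k := Nat.find_min' hex
    ⟨hk, Fin k, inferInstance, c0, by simp, hsur, hIM⟩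
  obtain ⟨hj, K, hK, c, hcard, hcs, hcm⟩ := Nat.find_spec hex
  set j := Nat.find hex with hjdef
  have hnj : j * (j + 1) < 2 * Fintype.card V :=
    lt_of_le_of_lt (Nat.mul_le_mul hle (Nat.add_le_add_right hle 1)) hn
  by_cases hj2 : j = 2
  · have hV3 : 3 ≤ Fintype.card V := by
      rw [hj2] at hnj
      have h5 : 2 * 3 < 2 * Fintype.card V := lt_of_le_of_lt (by norm_num) hnj
      omega
    have hKc : Fintype.card K = 2 := by rw [hcard, hj2]
    rw [← card_univ, card_eq_two] at hKc
    obtain ⟨a, b, hab, hall'⟩ := hKc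
    have hall : ∀ y : K, y = a ∨ y = b := by
      intro y
      have := mem_univ y
      rw [hall', mem_insert, mem_singleton] at this
      exact this
    obtain ⟨x0, hx0⟩ := hcs a
    obtain ⟨y0, hy0⟩ := hcs b
    apply cut_univ hH hV3 (univ.filter (fun x => c x = a)) ⟨x0, by simp [hx0]⟩
      ⟨y0, by simp [hy0, hab.symm]⟩ (G.Adj x0 y0)
    intro x hx y hy
    have hx' : c x = a := (mem_filter.mp hx).2
    have hy' : c y = b := by
      rcases (hall (c y)) with h | h
      · exact absurd (by simp [h]) (mem_sdiff.mp hy).2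
      · exact h
    rw [hcm y y0 x (by rw [hy', hy0]) (by rw [hx', hy']; exact hab), G.adj_comm,
      hcm x x0 y0 (by rw [hx', hx0]) (by rw [hy0, hx']; exact hab.symm), G.adj_comm]
  · have hQ : Pr (quo G c) := by
      refine ⟨by omega, ?_⟩
      intro M hM
      by_contra hcon
      rw [not_or] at hcon
      obtain ⟨h1, h2⟩ := hcon
      let c1 : V → Option {k // k ∉ M} := fun x => if h : c x ∈ M then none else some ⟨c x, h⟩
      have hc1 : ∀ x, c x ∈ M → c1 x = none := fun x h => dif_pos h
      have hc2 : ∀ x (h : c x ∉ M), c1 x = some ⟨c x, h⟩ := fun x h => dif_neg h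
      have hcardM : Fintype.card {k // k ∉ M} = Fintype.card K - M.card := by
        rw [Fintype.card_subtype_compl (fun k => k ∈ M)]
        simp
      have hMlt : M.card < Fintype.card K := by
        rw [← card_univ]
        exact card_lt_card (ssubset_univ_iff.mpr h2)
      have hcard1 : Fintype.card (Option {k // k ∉ M}) = Fintype.card K - M.card + 1 := by
        rw [Fintype.card_option, hcardM]
      refine hmin (Fintype.card K - M.card + 1) (by omega) ⟨by omega, Option {k // k ∉ M},
        inferInstance, c1, hcard1, ?_, ?_⟩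
      · intro o
        cases o with
        | none =>
          obtain ⟨i, hi⟩ := card_pos.mp (by omega : 0 < M.card)
          obtain ⟨x, hx⟩ := hcs i
          exact ⟨x, hc1 x (by rw [hx]; exact hi)⟩
        | some o =>
          obtain ⟨x, hx⟩ := hcs o.1
          refine ⟨x, ?_⟩
          rw [hc2 x (by rw [hx]; exact o.2)]
          congr 1
          exact Subtype.ext hx
      · intro x y z hxy hzx
        by_cases hx : c x ∈ M
        · rw [hc1 x hx] at hxy hzx
          have hy : c y ∈ M := by
            by_contra h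
            rw [hc2 y h] at hxy
            exact absurd hxy (by simp)
          have hz : c z ∉ M := fun h => hzx (hc1 z h)
          rw [quo_adj hcm z x (fun e => hz (e ▸ hx)), quo_adj hcm z y (fun e => hz (e ▸ hy))]
          exact hM.2 (c z) (mem_univ _) hz (c x) hx (c y) hy
        · rw [hc2 x hx] at hxy hzx
          have hy : c y ∉ M := by
            intro h
            rw [hc1 y h] at hxy
            exact absurd hxy (by simp)
          rw [hc2 y hy, Option.some_inj, Subtype.mk.injEq] at hxy
          apply hcm x y z hxy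
          intro e
          apply hzx
          rw [hc2 z (by rw [e]; exact hx)]
          congr 1
          exact Subtype.ext e
    have hS : St G univ c (quo G c) := by
      constructor
      · intro x _ y _ hxy
        exact quo_adj hcm x y hxy
      · intro k
        obtain ⟨x, hx⟩ := hcs k
        exact ⟨x, mem_univ _, hx⟩
    exact prime_count hQ hH hS (by rw [hcard]; exact hnj)

end Pool.Agent.Run7.h766.MD
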