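import Pool.Agent.Run7.h766.MD.Basic

set_option autoImplicit false
set_option linter.unusedSectionVars false

/-!
# The prime quotient is preserved by hypomorphisms
-/

namespace Pool.Agent.Run7.h766.MD

open Finset Classical
open Pool.Agent.H234RC (Hypo NonIso Reconstructible)
open Pool.Agent.TH87.RVC (dS dS_eq)

variable {V K : Type} [Fintype V] [Fintype K]
variable {G H : SimpleGraph V} {c : V → K} {Q : SimpleGraph K} {π : V → Equiv.Perm V}

/-- a prime induced subgraph -/
theorem R_prime (hQ : Pr Q) (y : V) (S : Finset V) (hy : y ∉ S) (hS : St H S c Q)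
    (h1 : ∃ a ∈ S, H.Adj y a) (h0 : ∃ b ∈ S, ¬ H.Adj y b)
    (h2 : ∀ j, ∃ x ∈ S, c x ≠ j ∧ ¬ (H.Adj y x ↔ Q.Adj j (c x)))
    (h3 : ∀ a ∈ S, ∀ b ∈ S, a ≠ b → c a = c b → ¬ (H.Adj y a ↔ H.Adj y b))
    (M : Finset V) (hM : Md H (insert y S) M) : M.card ≤ 1 ∨ M = insert y S := by
  have hE : (insert y S).erase y = S := erase_insert hy
  have hM' : Md H S (M.erase y) := by
    have := hM.erase y
    rwa [hE] at this
  have hMS : ∀ x ∈ M, x ≠ y → x ∈ S := by
    intro x hx hxy
    rcases mem_insert.mp (hM.1 hx) with h | h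
    · exact absurd h hxy
    · exact h
  rcases f1 hQ hS hM' with h | h
  · by_cases hyM : y ∈ M
    · by_cases hu : ∃ u ∈ M, u ≠ y
      · exfalso
        obtain ⟨u, hu, huy⟩ := hu
        obtain ⟨x, hx, hxc, hxa⟩ := h2 (c u)
        have hxy : x ≠ y := fun e => hy (e ▸ hx)
        have hxM : x ∉ M := by
          intro hxM
          exact hxc (h x (mem_erase.mpr ⟨hxy, hxM⟩) u (mem_erase.mpr ⟨huy, hu⟩))
        have h5 := hM.2 x (mem_insert_of_mem hx) hxM y hyM u hu
        have h6 := hS.adj x hx u (hMS u hu huy) hxc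
        apply hxa
        rw [H.adj_comm, h5, h6, Q.adj_comm]
      · left
        rw [card_le_one]
        intro a ha b hb
        have : ∀ z ∈ M, z = y := fun z hz => by
          by_contra hzy
          exact hu ⟨z, hz, hzy⟩
        rw [this a ha, this b hb]
    · left
      rw [card_le_one]
      intro a ha b hb
      by_contra hab
      have hay : a ≠ y := fun e => hyM (e ▸ ha)
      have hby : b ≠ y := fun e => hyM (e ▸ hb)
      have h5 := hM.2 y (mem_insert_self _ _) hyM a ha b hb
      exact h3 a (hMS a ha hay) b (hMS b hb hby) hab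
        (h a (mem_erase.mpr ⟨hay, ha⟩) b (mem_erase.mpr ⟨hby, hb⟩)) h5
  · by_cases hyM : y ∈ M
    · right
      rw [← insert_erase hyM, h]
    · exfalso
      obtain ⟨a, ha, haa⟩ := h1
      obtain ⟨b, hb, hbb⟩ := h0
      have h6 : ∀ x ∈ S, x ∈ M := fun x hx => by
        rw [← h] at hx
        exact (mem_erase.mp hx).2
      have h5 := hM.2 y (mem_insert_self _ _) hyM a (h6 a ha) b (h6 b hb)
      exact hbb (h5.mp haa)

/-- the extension lemma -/
theorem ext_lemma (hQ : Pr Q) (y : V) (hS : St H (univ.erase y) c Q)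
    (h1 : ∃ a, a ≠ y ∧ H.Adj y a) (h0 : ∃ b, b ≠ y ∧ ¬ H.Adj y b)
    (hno : ∀ j, ∃ x, x ≠ y ∧ c x ≠ j ∧ ¬ (H.Adj y x ↔ Q.Adj j (c x))) :
    ∃ S : Finset V, y ∉ S ∧ S.card ≤ Fintype.card K + 1 ∧ (∀ k, ∃ x ∈ S, c x = k) ∧
      ∀ M, Md H (insert y S) M → M.card ≤ 1 ∨ M = insert y S := by
  have hsur : ∀ k, ∃ x, x ≠ y ∧ c x = k := by
    intro k
    obtain ⟨x, hx, hk⟩ := hS.sur k
    exact ⟨x, (mem_erase.mp hx).1, hk⟩
  by_cases hsp : ∃ a b, a ≠ y ∧ b ≠ y ∧ c a = c b ∧ H.Adj y a ∧ ¬ H.Adj y b
  · obtain ⟨a, b, hay, hby, hab, ha, hb⟩ := hsp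
    obtain ⟨t, hty, htc, hta⟩ := hno (c a)
    have hs : ∀ l, ∃ x, x ≠ y ∧ c x = l ∧ (l = c a → x = a) ∧ (l = c t → x = t) := by
      intro l
      by_cases hl : l = c a
      · exact ⟨a, hay, hl.symm, fun _ => rfl, fun h => absurd (h.symm.trans hl) htc⟩
      · by_cases hl2 : l = c t
        · exact ⟨t, hty, hl2.symm, fun h => absurd h hl, fun _ => rfl⟩
        · obtain ⟨x, hx, hxl⟩ := hsur l
          exact ⟨x, hx, hxl, fun h => absurd h hl, fun h => absurd h hl2⟩
    choose s hs1 hs2 hs3 hs4 using hs
    have hyS : y ∉ insert b (univ.image s) := by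
      rw [mem_insert, mem_image]
      rintro (h | ⟨l, _, h⟩)
      · exact hby h.symm
      · exact hs1 l h
    have haS : a ∈ insert b (univ.image s) :=
      mem_insert_of_mem (mem_image.mpr ⟨c a, mem_univ _, hs3 _ rfl⟩)
    have htS : t ∈ insert b (univ.image s) :=
      mem_insert_of_mem (mem_image.mpr ⟨c t, mem_univ _, hs4 _ rfl⟩)
    have hbS : b ∈ insert b (univ.image s) := mem_insert_self _ _
    have hsurS : ∀ k, ∃ x ∈ insert b (univ.image s), c x = k := fun k =>
      ⟨s k, mem_insert_of_mem (mem_image_of_mem _ (mem_univ _)), hs2 k⟩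
    refine ⟨insert b (univ.image s), hyS, ?_, hsurS, ?_⟩
    · have h5 := card_insert_le b (univ.image s)
      have h6 : (univ.image s).card ≤ Fintype.card K := by
        have := card_image_le (s := (univ : Finset K)) (f := s)
        rwa [card_univ] at this
      omega
    · apply R_prime hQ y _ hyS
      · exact hS.restrict _ (fun x hx => mem_erase.mpr ⟨fun e => hyS (e ▸ hx), mem_univ _⟩) hsurS
      · exact ⟨a, haS, ha⟩
      · exact ⟨b, hbS, hb⟩
      · intro j
        by_cases hj : c a = j
        · exact ⟨t, htS, by rw [← hj]; exact htc, by rw [← hj]; exact hta⟩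
        · by_cases hQj : Q.Adj j (c a)
          · exact ⟨b, hbS, by rw [← hab]; exact hj, fun h => hb (h.mpr (by rw [← hab]; exact hQj))⟩
          · exact ⟨a, haS, hj, fun h => hQj (h.mp ha)⟩
      · have key : ∀ x ∈ insert b (univ.image s), x = b ∨ x = s (c x) := by
          intro x hx
          rcases mem_insert.mp hx with h | h
          · exact Or.inl h
          · obtain ⟨l, _, rfl⟩ := mem_image.mp h
            right
            rw [hs2]
        intro x hx x' hx' hne hcc
        rcases key x hx with h | h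
        · rcases key x' hx' with h' | h'
          · exact absurd (h.trans h'.symm) hne
          · have : x' = a := by rw [h']; exact hs3 _ (by rw [← hcc, h, hab])
            rw [h, this]
            exact fun e => hb (e.mpr ha)
        · rcases key x' hx' with h' | h'
          · have : x = a := by rw [h]; exact hs3 _ (by rw [hcc, h', hab])
            rw [h', this]
            exact fun e => hb (e.mp ha)
          · exact absurd (by rw [h, h', hcc]) hne
  · push Not at hsp
    have hns : ∀ a b, a ≠ y → b ≠ y → c a = c b → (H.Adj y a ↔ H.Adj y b) := by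
      intro a b ha hb hab
      exact ⟨fun h => hsp a b ha hb hab h, fun h => hsp b a hb ha hab.symm h⟩
    choose s hs1 hs2 using hsur
    have hyS : y ∉ univ.image s := by
      rw [mem_image]
      rintro ⟨l, _, h⟩
      exact hs1 l h
    have hsS : ∀ k, s k ∈ univ.image s := fun k => mem_image_of_mem _ (mem_univ _)
    have hsurS : ∀ k, ∃ x ∈ univ.image s, c x = k := fun k => ⟨s k, hsS k, hs2 k⟩
    refine ⟨univ.image s, hyS, ?_, hsurS, ?_⟩
    · have h6 : (univ.image s).card ≤ Fintype.card K := by
        have := card_image_le (s := (univ : Finset K)) (f := s)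
        rwa [card_univ] at this
      omega
    · apply R_prime hQ y _ hyS
      · exact hS.restrict _ (fun x hx => mem_erase.mpr ⟨fun e => hyS (e ▸ hx), mem_univ _⟩) hsurS
      · obtain ⟨a, ha, haa⟩ := h1
        exact ⟨s (c a), hsS _, (hns _ _ (hs1 _) ha (hs2 _)).mpr haa⟩
      · obtain ⟨a, ha, haa⟩ := h0
        exact ⟨s (c a), hsS _, fun h => haa ((hns _ _ (hs1 _) ha (hs2 _)).mp h)⟩
      · intro j
        obtain ⟨x, hxy, hxc, hxa⟩ := hno j
        refine ⟨s (c x), hsS _, by rw [hs2]; exact hxc, ?_⟩
        rw [hs2, hns _ _ (hs1 _) hxy (hs2 _)]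
        exact hxa
      · intro x hx x' hx' hne hcc
        exfalso
        obtain ⟨l, _, rfl⟩ := mem_image.mp hx
        obtain ⟨l', _, rfl⟩ := mem_image.mp hx'
        rw [hs2, hs2] at hcc
        exact hne (by rw [hcc])

/-- in the graph `G` with the prime quotient `Q` no card contains a large prime graph which is
contained in no proper module -/
theorem no_phi (hQ : Pr Q) (hS : St G univ c Q) (z : V) (R : Finset V) (hzR : z ∉ R)
    (hR : Fintype.card K + 1 ≤ R.card) (hp : ∀ M, Md G R M → M.card ≤ 1 ∨ M = R)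
    (hall : ∀ M, Md G (univ.erase z) M → R ⊆ M → M = univ.erase z) : False := by
  have h1 : ∃ k, R ⊆ fib univ c k := by
    by_contra hcon
    push Not at hcon
    have h2 : ∀ k, (fib univ c k ∩ R).card ≤ 1 := by
      intro k
      rcases hp _ ((fib_md hS k).restrict (subset_univ R)) with h | h
      · exact h
      · exact absurd (by rw [← h]; exact inter_subset_left) (hcon k)
    have h3 : R.card = ∑ k, (fib univ c k ∩ R).card := by
      rw [card_eq_sum_card_fiberwise (f := c) (t := univ) (fun x _ => mem_univ _)]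
      apply sum_congr rfl
      intro k _
      congr 1
      ext x
      rw [mem_filter, mem_inter, mem_fib]
      exact ⟨fun h => ⟨⟨mem_univ _, h.2⟩, h.1⟩, fun h => ⟨h.2, h.1.2⟩⟩
    have h4 : ∑ k, (fib univ c k ∩ R).card ≤ ∑ _k : K, 1 := sum_le_sum (fun k _ => h2 k)
    rw [sum_const, card_univ, smul_eq_mul, mul_one] at h4
    omega
  obtain ⟨k, hk⟩ := h1
  have h5 := hall _ ((fib_md hS k).erase z) (fun x hx => mem_erase.mpr
    ⟨fun e => hzR (e ▸ hx), hk hx⟩)
  obtain ⟨i, j, hi, hj, hij⟩ := exists_two hQ.1 k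
  obtain ⟨x, _, hx⟩ := hS.sur i
  obtain ⟨x', _, hx'⟩ := hS.sur j
  have h6 : ∀ w, w ≠ z → c w = k := by
    intro w hw
    have : w ∈ univ.erase z := mem_erase.mpr ⟨hw, mem_univ _⟩
    rw [← h5, mem_erase, mem_fib] at this
    exact this.2.2
  by_cases hxz : x = z
  · have : x' ≠ z := fun e => hij (by rw [← hx, ← hx', hxz, e])
    exact hj (by rw [← hx', h6 _ this])
  · exact hi (by rw [← hx, h6 _ hxz])

theorem prime_nb (hQ : Pr Q) (k : K) : (∃ l, l ≠ k ∧ Q.Adj k l) ∧ ∃ l, l ≠ k ∧ ¬ Q.Adj k l := by
  have key : ∀ P : Prop, (∀ l, l ≠ k → (Q.Adj k l ↔ P)) → False := by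
    intro P h
    have hm : Md Q univ (univ.erase k) := by
      refine ⟨subset_univ _, ?_⟩
      intro z _ hz i hi j hj
      have hz' : z = k := by simpa using hz
      subst hz'
      rw [h i (mem_erase.mp hi).1, h j (mem_erase.mp hj).1]
    rcases hQ.2 _ hm with h3 | h3
    · rw [card_erase_of_mem (mem_univ _), card_univ] at h3
      have := hQ.1
      omega
    · have := mem_univ k
      rw [← h3] at this
      simp at this
  constructor
  · by_contra hcon
    push Not at hcon
    exact key False (fun l hl => ⟨fun h => hcon l hl h, fun h => h.elim⟩)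
  · by_contra hcon
    push Not at hcon
    exact key True (fun l hl => ⟨fun _ => trivial, fun _ => hcon l hl⟩)

theorem recog (hQ : Pr Q) (hH : Hypo G H π) (hS : St G univ c Q)
    (hn : Fintype.card K + 3 ≤ Fintype.card V) : ∃ c' : V → K, St H univ c' Q := by
  obtain ⟨y, y', hyy, hcy⟩ : ∃ y y' : V, y ≠ y' ∧ c y = c y' := by
    by_contra hcon
    push Not at hcon
    have : Function.Injective c := fun a b h => by
      by_contra hab
      exact hcon a b hab h
    have := Fintype.card_le_of_injective c this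
    omega
  have hsur : ∀ k, ∃ x ∈ univ.erase y, c x = k := by
    intro k
    obtain ⟨x, _, hx⟩ := hS.sur k
    by_cases hxy : x = y
    · exact ⟨y', mem_erase.mpr ⟨hyy.symm, mem_univ _⟩, by rw [← hcy, ← hxy, hx]⟩
    · exact ⟨x, mem_erase.mpr ⟨hxy, mem_univ _⟩, hx⟩
  have hSy := (hS.restrict _ (erase_subset y univ) hsur).map (π y) (er_iff hH y) (er_adj hH y)
  set d : V → K := fun x => c ((π y).symm x) with hd
  by_contra hcon
  have hno : ∀ j, ∃ x, x ≠ y ∧ d x ≠ j ∧ ¬ (H.Adj y x ↔ Q.Adj j (d x)) := by
    intro j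
    by_contra hc
    push Not at hc
    apply hcon
    refine ⟨Function.update d y j, ?_, ?_⟩
    · intro a _ b _ hab
      by_cases hay : a = y
      · by_cases hby : b = y
        · rw [hay, hby] at hab
          exact absurd rfl hab
        · rw [hay, Function.update_self, Function.update_of_ne hby] at hab ⊢
          exact hc b hby (fun e => hab e.symm)
      · by_cases hby : b = y
        · rw [hby, Function.update_self, Function.update_of_ne hay] at hab ⊢
          rw [H.adj_comm, Q.adj_comm]
          exact hc a hay hab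
        · rw [Function.update_of_ne hay, Function.update_of_ne hby] at hab ⊢
          exact hSy.adj a (mem_erase.mpr ⟨hay, mem_univ _⟩) b (mem_erase.mpr ⟨hby, mem_univ _⟩) hab
    · intro k
      obtain ⟨x, hx, hk⟩ := hSy.sur k
      exact ⟨x, mem_univ _, by rw [Function.update_of_ne (mem_erase.mp hx).1]; exact hk⟩
  have hdeg := dS_eq hH univ (fun _ _ _ _ => mem_univ _) (by rw [card_univ]; omega) y (mem_univ _)
  have h1 : ∃ a, a ≠ y ∧ H.Adj y a := by
    obtain ⟨l, hl, hl2⟩ := (prime_nb hQ (c y)).1
    obtain ⟨x, _, hx⟩ := hS.sur l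
    have hxa : G.Adj y x := (hS.adj y (mem_univ _) x (mem_univ _) (by rw [hx]; exact hl.symm)).mpr
      (by rw [hx]; exact hl2)
    have hpos : 0 < dS G univ y := by
      unfold dS
      exact card_pos.mpr ⟨x, mem_filter.mpr ⟨mem_univ _, hxa⟩⟩
    rw [hdeg] at hpos
    unfold dS at hpos
    obtain ⟨a, ha⟩ := card_pos.mp hpos
    have := (mem_filter.mp ha).2
    exact ⟨a, fun e => H.irrefl (e ▸ this), this⟩
  have h0 : ∃ b, b ≠ y ∧ ¬ H.Adj y b := by
    obtain ⟨l, hl, hl2⟩ := (prime_nb hQ (c y)).2
    obtain ⟨x, _, hx⟩ := hS.sur l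
    have hxa : ¬ G.Adj y x := fun h => hl2 (by
      rw [← hx]
      exact (hS.adj y (mem_univ _) x (mem_univ _) (by rw [hx]; exact hl.symm)).mp h)
    by_contra hc
    push Not at hc
    have e1 : dS H univ y = Fintype.card V - 1 := by
      unfold dS
      rw [← card_univ, ← card_erase_of_mem (mem_univ y)]
      congr 1
      ext a
      rw [mem_filter, mem_erase]
      exact ⟨fun h => ⟨fun e => H.irrefl (e ▸ h.2), h.1⟩, fun h => ⟨h.2, hc a h.1⟩⟩
    have e2 : dS G univ y < Fintype.card V - 1 := by
      unfold dS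
      rw [← card_univ, ← card_erase_of_mem (mem_univ y)]
      apply card_lt_card
      refine ⟨fun a ha => ?_, fun hh => ?_⟩
      · have := (mem_filter.mp ha).2
        exact mem_erase.mpr ⟨fun e => G.irrefl (e ▸ this), mem_univ _⟩
      · have hxy : x ≠ y := fun e => hl (by rw [← hx, e])
        exact hxa (mem_filter.mp (hh (mem_erase.mpr ⟨hxy, mem_univ x⟩))).2
    omega
  obtain ⟨S, hyS, hSc, hSs, hSp⟩ := ext_lemma hQ y hSy h1 h0 hno
  -- a vertex outside
  obtain ⟨z, hz⟩ : ∃ z, z ∉ insert y S := by
    by_contra hc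
    push Not at hc
    have h5 : (univ : Finset V) ⊆ insert y S := fun x _ => hc x
    have h6 := card_le_card h5
    have h7 := card_insert_le y S
    rw [card_univ] at h6
    omega
  have hcardS : Fintype.card K ≤ S.card := by
    rw [← card_univ]
    have : (univ : Finset K) ⊆ S.image d := fun k _ => by
      obtain ⟨x, hx, hk⟩ := hSs k
      exact mem_image.mpr ⟨x, hx, hk⟩
    exact (card_le_card this).trans card_image_le
  -- every module of `H - z` containing the set is everything
  have hall : ∀ M, Md H (univ.erase z) M → insert y S ⊆ M → M = univ.erase z := by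
    intro M hM hRM
    have hM' := hM.erase y
    have hst : St H ((univ.erase z).erase y) d Q := by
      refine hSy.restrict _ (fun x hx => ?_) (fun k => ?_)
      · exact mem_erase.mpr ⟨(mem_erase.mp hx).1, mem_univ _⟩
      · obtain ⟨x, hx, hk⟩ := hSs k
        refine ⟨x, mem_erase.mpr ⟨fun e => hyS (e ▸ hx), mem_erase.mpr ⟨fun e => hz (by
          rw [← e]; exact mem_insert_of_mem hx), mem_univ _⟩⟩, hk⟩
    rcases f1 hQ hst hM' with h | h
    · exfalso
      obtain ⟨i, j, _, _, hij⟩ := exists_two hQ.1 (c y)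
      obtain ⟨x, hx, hxi⟩ := hSs i
      obtain ⟨x', hx', hxj⟩ := hSs j
      apply hij
      rw [← hxi, ← hxj]
      exact h x (mem_erase.mpr ⟨fun e => hyS (e ▸ hx), hRM (mem_insert_of_mem hx)⟩) x'
        (mem_erase.mpr ⟨fun e => hyS (e ▸ hx'), hRM (mem_insert_of_mem hx')⟩)
    · rw [← insert_erase (hRM (mem_insert_self y S)), h, insert_erase]
      exact hM.1 (hRM (mem_insert_self y S))
  -- transport to `G`
  have hG := hypo_symm hH
  let σ : Equiv.Perm V := (π z).symm
  have hRz : ∀ x ∈ insert y S, x ∈ univ.erase z := fun x hx =>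
    mem_erase.mpr ⟨fun e => hz (e ▸ hx), mem_univ _⟩
  have hmem : ∀ x, σ x ∈ (insert y S).map σ.toEmbedding ↔ x ∈ insert y S := by
    intro x
    constructor
    · intro hx
      obtain ⟨w, hw, hwx⟩ := mem_map.mp hx
      have : w = x := σ.injective hwx
      rw [← this]
      exact hw
    · intro hx
      exact mem_map_of_mem _ hx
  apply no_phi hQ hS z ((insert y S).map σ.toEmbedding)
  · intro hzz
    obtain ⟨w, hw, hwz⟩ := mem_map.mp hzz
    have h8 := (er_iff hG z w).mpr (hRz w hw)
    have h9 : ((π z).symm w : V) = z := hwz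
    simp only [h9] at h8
    simp at h8
  · rw [card_map, card_insert_of_notMem hyS]
    omega
  · intro M hM
    have h8 : Md H (insert y S) (M.map (π z).toEmbedding) := by
      apply Md.map (π z) _ _ hM
      · intro x
        have := hmem (π z x)
        simp only [σ, Equiv.symm_apply_apply] at this
        exact this.symm
      · intro a ha b hb
        have ha' : a ∈ univ.erase z := by
          obtain ⟨w, hw, rfl⟩ := mem_map.mp ha
          exact (er_iff hG z w).mpr (hRz w hw)
        have hb' : b ∈ univ.erase z := by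
          obtain ⟨w, hw, rfl⟩ := mem_map.mp hb
          exact (er_iff hG z w).mpr (hRz w hw)
        exact er_adj hH z a ha' b hb'
    rcases hSp _ h8 with h | h
    · left
      rwa [card_map] at h
    · right
      ext x
      rw [← mem_map' (π z).toEmbedding, h]
      have := hmem (π z x)
      simp only [σ, Equiv.symm_apply_apply] at this
      exact this.symm
  · intro M hM hRM
    have h8 : Md H (univ.erase z) (M.map (π z).toEmbedding) :=
      Md.map (π z) (er_iff hH z) (er_adj hH z) hM
    have h9 := hall _ h8 (fun x hx => by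
      have := hRM ((hmem x).mpr hx)
      rw [mem_map]
      exact ⟨σ x, this, (π z).apply_symm_apply x⟩)
    ext x
    rw [← mem_map' (π z).toEmbedding, h9]
    exact er_iff hH z x

end Pool.Agent.Run7.h766.MD
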