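import Pool.Agent.Run7.h766.MD.Recog

set_option autoImplicit false
set_option linter.unusedSectionVars false

/-!
# The vertices in nontrivial classes, and the automorphisms of the quotient given by the cards
-/

namespace Pool.Agent.Run7.h766.MD

open Finset Classical
open Pool.Agent.H234RC (Hypo NonIso Reconstructible)

variable {V K : Type} [Fintype V] [Fintype K]
variable {G H : SimpleGraph V} {c c' : V → K} {Q : SimpleGraph K} {π : V → Equiv.Perm V}

/-- the vertices in nontrivial classes -/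
noncomputable def WW (c : V → K) : Finset V := univ.filter (fun x => ∃ y, y ≠ x ∧ c y = c x)

theorem mem_WW (x : V) : x ∈ WW c ↔ ∃ y, y ≠ x ∧ c y = c x := by
  unfold WW
  rw [mem_filter]
  exact ⟨fun h => h.2, fun h => ⟨mem_univ _, h⟩⟩

theorem sur_erase (hS : St G univ c Q) (x : V) (hx : x ∈ WW c) : ∀ k, ∃ y ∈ univ.erase x, c y = k := by
  intro k
  obtain ⟨z, _, hz⟩ := hS.sur k
  obtain ⟨y, hyx, hy⟩ := (mem_WW x).mp hx
  by_cases hzx : z = x
  · exact ⟨y, mem_erase.mpr ⟨hyx, mem_univ _⟩, by rw [hy, ← hzx, hz]⟩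
  · exact ⟨z, mem_erase.mpr ⟨hzx, mem_univ _⟩, hz⟩

theorem st_card (hH : Hypo G H π) (hS : St G univ c Q) (x : V) (hx : x ∈ WW c) :
    St H (univ.erase x) (fun z => c ((π x).symm z)) Q :=
  (hS.restrict _ (erase_subset x univ) (sur_erase hS x hx)).map (π x) (er_iff hH x) (er_adj hH x)

theorem WW_sub (hQ : Pr Q) (hH : Hypo G H π) (hS : St G univ c Q) (hS' : St H univ c' Q) (x : V)
    (hx : x ∈ WW c) : x ∈ WW c' := by
  by_contra hcon
  have hd := st_card hH hS x hx
  set d : V → K := fun z => c ((π x).symm z) with hdd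
  have hsing : ∀ y, y ≠ x → c' y ≠ c' x := fun y hy h => hcon ((mem_WW x).mpr ⟨y, hy, h⟩)
  have hconst : ∀ a b, a ≠ x → b ≠ x → c' a = c' b → d a = d b := by
    intro a b ha hb hab
    have hm : Md H (univ.erase x) (fib (univ.erase x) c' (c' a)) := by
      refine ⟨filter_subset _ _, ?_⟩
      intro z hz hzk u hu w hw
      rw [mem_fib] at hzk hu hw
      have hzk' : c' z ≠ c' a := fun h => hzk ⟨hz, h⟩
      rw [hS'.adj z (mem_univ _) u (mem_univ _) (by rw [hu.2]; exact hzk'),
        hS'.adj z (mem_univ _) w (mem_univ _) (by rw [hw.2]; exact hzk'), hu.2, hw.2]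
    rcases f1 hQ hd hm with h | h
    · exact h a ((mem_fib _ _).mpr ⟨mem_erase.mpr ⟨ha, mem_univ _⟩, rfl⟩) b
        ((mem_fib _ _).mpr ⟨mem_erase.mpr ⟨hb, mem_univ _⟩, hab.symm⟩)
    · exfalso
      obtain ⟨i, j, hi, hj, hij⟩ := exists_two hQ.1 (c' x)
      obtain ⟨u, _, hu⟩ := hS'.sur i
      obtain ⟨w, _, hw⟩ := hS'.sur j
      have key : ∀ z, z ≠ x → c' z = c' a := by
        intro z hz
        have : z ∈ univ.erase x := mem_erase.mpr ⟨hz, mem_univ _⟩
        rw [← h, mem_fib] at this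
        exact this.2
      apply hij
      rw [← hu, ← hw, key u (fun e => hi (by rw [← hu, e])), key w (fun e => hj (by rw [← hw, e]))]
  choose s _ hs using hS'.sur
  have hsub : (univ : Finset K) ⊆ (univ.erase (c' x)).image (fun k => d (s k)) := by
    intro l _
    obtain ⟨a, ha, hal⟩ := hd.sur l
    have hax := (mem_erase.mp ha).1
    refine mem_image.mpr ⟨c' a, mem_erase.mpr ⟨hsing a hax, mem_univ _⟩, ?_⟩
    rw [← hal]
    have hsx : s (c' a) ≠ x := by
      intro e
      have := hs (c' a)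
      rw [e] at this
      exact hsing a hax this.symm
    exact hconst _ _ hsx hax (hs _)
  have h1 := (card_le_card hsub).trans card_image_le
  rw [card_erase_of_mem (mem_univ _), card_univ] at h1
  have := hQ.1
  omega

theorem WW_eq (hQ : Pr Q) (hH : Hypo G H π) (hS : St G univ c Q) (hS' : St H univ c' Q) :
    WW c = WW c' := by
  apply subset_antisymm
  · exact fun x hx => WW_sub hQ hH hS hS' x hx
  · exact fun x hx => WW_sub hQ (hypo_symm hH) hS' hS x hx

/-- an automorphism of `Q` -/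
def Au (Q : SimpleGraph K) (α : Equiv.Perm K) : Prop := ∀ i j, (Q.Adj (α i) (α j) ↔ Q.Adj i j)

theorem alpha (hQ : Pr Q) (hH : Hypo G H π) (hS : St G univ c Q) (hS' : St H univ c' Q) (x : V)
    (hx : x ∈ WW c) : ∃ α : Equiv.Perm K, Au Q α ∧ ∀ z, z ≠ x → c' (π x z) = α (c z) := by
  have hd := st_card hH hS x hx
  have hx' := WW_sub hQ hH hS hS' x hx
  have hd' := hS'.restrict _ (erase_subset x univ) (sur_erase hS' x hx')
  obtain ⟨α, h1, h2⟩ := uniq hQ hd hQ hd'
  refine ⟨α, h2, fun z hz => ?_⟩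
  have := h1 (π x z) ((er_iff hH x z).mpr (mem_erase.mpr ⟨hz, mem_univ _⟩))
  simpa using this

/-- the class of the colour `k` -/
noncomputable def fb (c : V → K) (k : K) : Finset V := univ.filter (fun x => c x = k)

theorem mem_fb (x : V) (k : K) : x ∈ fb c k ↔ c x = k := by
  unfold fb
  rw [mem_filter]
  exact ⟨fun h => h.2, fun h => ⟨mem_univ _, h⟩⟩

theorem fb_erase (hH : Hypo G H π) (x : V) (α : Equiv.Perm K)
    (hα : ∀ z, z ≠ x → c' (π x z) = α (c z)) (k : K) (z : V) :
    π x z ∈ (fb c' (α k)).erase x ↔ z ∈ (fb c k).erase x := by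
  rw [mem_erase, mem_erase, mem_fb, mem_fb]
  by_cases hz : z = x
  · rw [hz, hH.fix]
    exact ⟨fun h => absurd rfl h.1, fun h => absurd rfl h.1⟩
  · have h1 : π x z ≠ x := fun e => hz ((π x).injective (by rw [e, hH.fix]))
    rw [hα z hz]
    exact ⟨fun h => ⟨hz, α.injective h.2⟩, fun h => ⟨h1, by rw [h.2]⟩⟩

theorem fb_sub_WW (k : K) (h : 2 ≤ (fb c k).card) : fb c k ⊆ WW c := by
  intro x hx
  rw [mem_WW]
  obtain ⟨y, hy, hyx⟩ := exists_mem_ne (by omega : 1 < (fb c k).card) x
  exact ⟨y, hyx, by rw [(mem_fb _ _).mp hy, (mem_fb _ _).mp hx]⟩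

theorem two_le_fb (x : V) (hx : x ∈ WW c) : 2 ≤ (fb c (c x)).card := by
  obtain ⟨y, hy, hyx⟩ := (mem_WW x).mp hx
  exact one_lt_card.mpr ⟨x, (mem_fb _ _).mpr rfl, y, (mem_fb _ _).mpr hyx, hy.symm⟩

/-! ### Isomorphism types of induced subgraphs -/

/-- isomorphism of induced subgraphs -/
def sI (S T : Finset V × SimpleGraph V) : Prop :=
  ∃ σ : Equiv.Perm V, (∀ x, σ x ∈ T.1 ↔ x ∈ S.1) ∧
    ∀ x ∈ S.1, ∀ y ∈ S.1, (T.2.Adj (σ x) (σ y) ↔ S.2.Adj x y)

instance stI (V : Type) [Fintype V] : Setoid (Finset V × SimpleGraph V) where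
  r := sI
  iseqv := by
    refine ⟨?_, ?_, ?_⟩
    · intro S
      exact ⟨Equiv.refl V, fun x => Iff.rfl, fun x _ y _ => Iff.rfl⟩
    · rintro S T ⟨σ, h1, h2⟩
      refine ⟨σ.symm, fun x => ?_, fun x hx y hy => ?_⟩
      · rw [← h1, Equiv.apply_symm_apply]
      · have hx' : σ.symm x ∈ S.1 := by rw [← h1, Equiv.apply_symm_apply]; exact hx
        have hy' : σ.symm y ∈ S.1 := by rw [← h1, Equiv.apply_symm_apply]; exact hy
        have := h2 _ hx' _ hy'
        rw [Equiv.apply_symm_apply, Equiv.apply_symm_apply] at this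
        exact this.symm
    · rintro S T R ⟨σ, h1, h2⟩ ⟨τ, h3, h4⟩
      refine ⟨σ.trans τ, fun x => ?_, fun x hx y hy => ?_⟩
      · rw [Equiv.trans_apply, h3, h1]
      · rw [Equiv.trans_apply, Equiv.trans_apply, h4 _ ((h1 x).mpr hx) _ ((h1 y).mpr hy),
          h2 x hx y hy]

/-- the isomorphism types -/
def TY (V : Type) [Fintype V] : Type := Quotient (stI V)

/-- the type of the graph induced by `S` -/
def ty (S : Finset V) (G : SimpleGraph V) : TY V := Quotient.mk (stI V) (S, G)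

theorem ty_eq (S T : Finset V) (G H : SimpleGraph V) : ty S G = ty T H ↔ sI (S, G) (T, H) := by
  unfold ty
  exact Quotient.eq (r := stI V)

theorem card_sI (S T : Finset V × SimpleGraph V) (h : sI S T) : S.1.card = T.1.card := by
  obtain ⟨σ, h1, _⟩ := h
  exact card_equiv σ (fun i => (h1 i).symm)

/-- the number of vertices -/
noncomputable def sz (t : TY V) : ℕ := (Quotient.out t).1.card

theorem sz_ty (S : Finset V) (G : SimpleGraph V) : sz (ty S G) = S.card := by
  unfold sz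
  have h : Quotient.mk (stI V) (Quotient.out (ty S G)) = Quotient.mk (stI V) (S, G) :=
    Quotient.out_eq _
  exact card_sI _ _ (Quotient.exact h)

theorem sI_erase (S T : Finset V) (G H : SimpleGraph V) (σ : Equiv.Perm V)
    (h1 : ∀ x, σ x ∈ T ↔ x ∈ S) (h2 : ∀ x ∈ S, ∀ y ∈ S, (H.Adj (σ x) (σ y) ↔ G.Adj x y)) (x : V) :
    ty (S.erase x) G = ty (T.erase (σ x)) H := by
  rw [ty_eq]
  refine ⟨σ, fun z => ?_, fun a ha b hb => h2 a (mem_of_mem_erase ha) b (mem_of_mem_erase hb)⟩
  show σ z ∈ T.erase (σ x) ↔ z ∈ S.erase x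
  rw [mem_erase, mem_erase, h1, σ.injective.ne_iff]

/-- the number of the vertices of `s` whose deletion gives `t` -/
noncomputable def gg (t s : TY V) : ℕ :=
  ((Quotient.out s).1.filter (fun x => ty ((Quotient.out s).1.erase x) (Quotient.out s).2 = t)).card

theorem gg_eq (S : Finset V) (G : SimpleGraph V) (t : TY V) :
    (S.filter (fun x => ty (S.erase x) G = t)).card = gg t (ty S G) := by
  unfold gg
  have h : Quotient.mk (stI V) (Quotient.out (ty S G)) = Quotient.mk (stI V) (S, G) :=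
    Quotient.out_eq _
  obtain ⟨σ, h1, h2⟩ := Quotient.exact h
  symm
  apply card_equiv σ
  intro i
  rw [mem_filter, mem_filter, h1 i, sI_erase _ _ _ _ σ h1 h2 i]

theorem gg_zero (t s : TY V) (h : sz s ≠ sz t + 1) : gg t s = 0 := by
  unfold gg
  rw [card_eq_zero, filter_eq_empty_iff]
  intro x hx hxt
  apply h
  rw [← hxt, sz_ty, card_erase_of_mem hx]
  have : 0 < (Quotient.out s).1.card := card_pos.mpr ⟨x, hx⟩
  show (Quotient.out s).1.card = _
  omega

/-- two singletons have the same type -/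
theorem ty_single (S T : Finset V) (G H : SimpleGraph V) (h1 : S.card = 1) (h2 : T.card = 1) :
    ty S G = ty T H := by
  obtain ⟨a, rfl⟩ := card_eq_one.mp h1
  obtain ⟨b, rfl⟩ := card_eq_one.mp h2
  rw [ty_eq]
  refine ⟨Equiv.swap a b, fun x => ?_, fun x hx y hy => ?_⟩
  · show Equiv.swap a b x ∈ ({b} : Finset V) ↔ x ∈ ({a} : Finset V)
    rw [mem_singleton, mem_singleton]
    constructor
    · intro h
      rw [← (Equiv.swap a b).injective.eq_iff, h, Equiv.swap_apply_left]
    · intro h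
      rw [h, Equiv.swap_apply_left]
  · rw [mem_singleton] at hx hy
    rw [hx, hy]
    exact ⟨fun h => absurd h H.irrefl, fun h => absurd h G.irrefl⟩

theorem card_tag (hH : Hypo G H π) (x : V) (α : Equiv.Perm K)
    (hα : ∀ z, z ≠ x → c' (π x z) = α (c z)) (k : K) :
    ty ((fb c k).erase x) G = ty ((fb c' (α k)).erase x) H := by
  rw [ty_eq]
  refine ⟨π x, fb_erase hH x α hα k, fun a ha b hb => ?_⟩
  exact hH.adj x a b (mem_erase.mp ha).1 (mem_erase.mp hb).1

end Pool.Agent.Run7.h766.MD
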