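import Pool.Agent.R694.RC.Tame

set_option autoImplicit false
set_option linter.unusedSectionVars false

/-!
# Modules of graphs and prime quotients
-/

namespace Pool.Agent.Run7.h766.MD

open Finset Classical
open Pool.Agent.H234RC (Hypo NonIso Reconstructible)

variable {V K L : Type} [Fintype V] [Fintype K] [Fintype L]

/-- `M` is a module of the graph induced by `U` -/
def Md {V : Type} (G : SimpleGraph V) (U M : Finset V) : Prop :=
  M ⊆ U ∧ ∀ z ∈ U, z ∉ M → ∀ x ∈ M, ∀ y ∈ M, (G.Adj z x ↔ G.Adj z y)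

/-- at least three vertices and no nontrivial modules -/
def Pr {K : Type} [Fintype K] (Q : SimpleGraph K) : Prop :=
  3 ≤ Fintype.card K ∧ ∀ M : Finset K, Md Q univ M → M.card ≤ 1 ∨ M = univ

/-- the colouring `c` of `U` has the quotient graph `Q` -/
structure St {V K : Type} (G : SimpleGraph V) (U : Finset V) (c : V → K) (Q : SimpleGraph K) :
    Prop where
  adj : ∀ x ∈ U, ∀ y ∈ U, c x ≠ c y → (G.Adj x y ↔ Q.Adj (c x) (c y))
  sur : ∀ k, ∃ x ∈ U, c x = k

variable {G H : SimpleGraph V} {U : Finset V} {c : V → K} {Q : SimpleGraph K}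

theorem f1 (hQ : Pr Q) (hS : St G U c Q) {M : Finset V} (hM : Md G U M) :
    (∀ x ∈ M, ∀ y ∈ M, c x = c y) ∨ M = U := by
  by_contra hcon
  rw [not_or] at hcon
  obtain ⟨h0, hne⟩ := hcon
  push Not at h0
  obtain ⟨a, ha, b, hb, hab⟩ := h0
  have himg : Md Q univ (M.image c) := by
    refine ⟨subset_univ _, ?_⟩
    intro k _ hk i hi j hj
    obtain ⟨x, hx, rfl⟩ := mem_image.mp hi
    obtain ⟨y, hy, rfl⟩ := mem_image.mp hj
    obtain ⟨z, hz, hzk⟩ := hS.sur k
    have hzM : z ∉ M := fun h => hk (by rw [← hzk]; exact mem_image_of_mem c h)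
    have h1 := hM.2 z hz hzM x hx y hy
    have hx' : c z ≠ c x := fun h => hk (by rw [← hzk, h]; exact mem_image_of_mem c hx)
    have hy' : c z ≠ c y := fun h => hk (by rw [← hzk, h]; exact mem_image_of_mem c hy)
    rw [hS.adj z hz x (hM.1 hx) hx', hS.adj z hz y (hM.1 hy) hy', hzk] at h1
    exact h1
  rcases hQ.2 _ himg with h | h
  · exact hab (card_le_one.mp h _ (mem_image_of_mem c ha) _ (mem_image_of_mem c hb))
  · obtain ⟨y, hyU, hyM⟩ : ∃ y ∈ U, y ∉ M := by
      by_contra hh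
      push Not at hh
      exact hne (subset_antisymm hM.1 hh)
    have hm2 : Md Q univ (univ.erase (c y)) := by
      refine ⟨subset_univ _, ?_⟩
      intro k _ hk i hi j hj
      have hk' : k = c y := by simpa using hk
      subst hk'
      obtain ⟨x, hx, hxi⟩ : ∃ x ∈ M, c x = i := mem_image.mp (h ▸ mem_univ i)
      obtain ⟨x', hx', hxj⟩ : ∃ x ∈ M, c x = j := mem_image.mp (h ▸ mem_univ j)
      have h5 := hM.2 y hyU hyM x hx x' hx'
      rw [hS.adj y hyU x (hM.1 hx) (by rw [hxi]; exact fun e => (mem_erase.mp hi).1 e.symm),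
        hS.adj y hyU x' (hM.1 hx') (by rw [hxj]; exact fun e => (mem_erase.mp hj).1 e.symm),
        hxi, hxj] at h5
      exact h5
    rcases hQ.2 _ hm2 with h3 | h3
    · rw [card_erase_of_mem (mem_univ _), card_univ] at h3
      have := hQ.1
      omega
    · have := mem_univ (c y)
      rw [← h3] at this
      simp at this

/-- a colour class -/
noncomputable def fib (U : Finset V) (c : V → K) (k : K) : Finset V := U.filter (fun x => c x = k)

theorem mem_fib (x : V) (k : K) : x ∈ fib U c k ↔ x ∈ U ∧ c x = k := by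
  unfold fib
  rw [mem_filter]

theorem fib_md (hS : St G U c Q) (k : K) : Md G U (fib U c k) := by
  refine ⟨filter_subset _ _, ?_⟩
  intro z hz hzk x hx y hy
  rw [mem_fib] at hzk hx hy
  have hzk' : c z ≠ k := fun h => hzk ⟨hz, h⟩
  rw [hS.adj z hz x hx.1 (by rw [hx.2]; exact hzk'), hS.adj z hz y hy.1 (by rw [hy.2]; exact hzk'),
    hx.2, hy.2]

theorem exists_two (hK : 3 ≤ Fintype.card K) (k : K) : ∃ i j : K, i ≠ k ∧ j ≠ k ∧ i ≠ j := by
  have h1 : 1 < (univ.erase k).card := by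
    rw [card_erase_of_mem (mem_univ _), card_univ]
    omega
  obtain ⟨i, hi, j, hj, hij⟩ := one_lt_card.mp h1
  exact ⟨i, j, (mem_erase.mp hi).1, (mem_erase.mp hj).1, hij⟩

theorem fib_ne (hQ : Pr Q) (hS : St G U c Q) (k : K) : fib U c k ≠ U := by
  intro h
  obtain ⟨i, _, hi, _, _⟩ := exists_two hQ.1 k
  obtain ⟨x, hx, hxi⟩ := hS.sur i
  rw [← h, mem_fib] at hx
  exact hi (by rw [← hxi, hx.2])

theorem const_of (hQ : Pr Q) (hS : St G U c Q) {c' : V → L} {Q' : SimpleGraph L} (hQ' : Pr Q')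
    (hS' : St G U c' Q') (x y : V) (hx : x ∈ U) (hy : y ∈ U) (h : c x = c y) : c' x = c' y := by
  rcases f1 hQ' hS' (fib_md hS (c x)) with h1 | h1
  · exact h1 x ((mem_fib _ _).mpr ⟨hx, rfl⟩) y ((mem_fib _ _).mpr ⟨hy, h.symm⟩)
  · exact absurd h1 (fib_ne hQ hS _)

theorem uniq (hQ : Pr Q) (hS : St G U c Q) {c' : V → L} {Q' : SimpleGraph L} (hQ' : Pr Q')
    (hS' : St G U c' Q') : ∃ α : K ≃ L, (∀ x ∈ U, c' x = α (c x)) ∧
      ∀ i j, (Q'.Adj (α i) (α j) ↔ Q.Adj i j) := by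
  choose s hs1 hs2 using hS.sur
  choose s' hs1' hs2' using hS'.sur
  let α : K ≃ L :=
    { toFun := fun k => c' (s k)
      invFun := fun l => c (s' l)
      left_inv := by
        intro k
        show c (s' (c' (s k))) = k
        conv_rhs => rw [← hs2 k]
        exact const_of hQ' hS' hQ hS _ _ (hs1' _) (hs1 _) (hs2' _)
      right_inv := by
        intro l
        show c' (s (c (s' l))) = l
        conv_rhs => rw [← hs2' l]
        exact const_of hQ hS hQ' hS' _ _ (hs1 _) (hs1' _) (hs2 _) }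
  refine ⟨α, ?_, ?_⟩
  · intro x hx
    exact const_of hQ hS hQ' hS' _ _ hx (hs1 _) (hs2 _).symm
  · intro i j
    by_cases hij : i = j
    · subst hij
      exact ⟨fun h => absurd h (Q'.irrefl), fun h => absurd h Q.irrefl⟩
    · have h1 : c' (s i) ≠ c' (s j) := fun h => hij (α.injective h)
      show Q'.Adj (c' (s i)) (c' (s j)) ↔ _
      rw [← hS'.adj _ (hs1 i) _ (hs1 j) h1, hS.adj _ (hs1 i) _ (hs1 j) (by rw [hs2, hs2]; exact hij),
        hs2, hs2]

/-- restriction -/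
theorem St.restrict (hS : St G U c Q) (U' : Finset V) (h : U' ⊆ U) (hs : ∀ k, ∃ x ∈ U', c x = k) :
    St G U' c Q :=
  ⟨fun x hx y hy hxy => hS.adj x (h hx) y (h hy) hxy, hs⟩

theorem Md.restrict {M U' : Finset V} (hM : Md G U M) (h : U' ⊆ U) : Md G U' (M ∩ U') := by
  refine ⟨inter_subset_right, ?_⟩
  intro z hz hzM x hx y hy
  exact hM.2 z (h hz) (fun h' => hzM (mem_inter.mpr ⟨h', hz⟩)) x (mem_inter.mp hx).1 y
    (mem_inter.mp hy).1

theorem Md.erase {M : Finset V} (hM : Md G U M) (y : V) : Md G (U.erase y) (M.erase y) := by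
  refine ⟨erase_subset_erase _ hM.1, ?_⟩
  intro z hz hzM a ha b hb
  rw [mem_erase] at hz
  exact hM.2 z hz.2 (fun h => hzM (mem_erase.mpr ⟨hz.1, h⟩)) a (mem_erase.mp ha).2 b
    (mem_erase.mp hb).2

/-- transport by a permutation -/
theorem Md.map {M U' : Finset V} (σ : Equiv.Perm V) (hU : ∀ x, σ x ∈ U' ↔ x ∈ U)
    (ha : ∀ x ∈ U, ∀ y ∈ U, (H.Adj (σ x) (σ y) ↔ G.Adj x y)) (hM : Md G U M) :
    Md H U' (M.map σ.toEmbedding) := by
  refine ⟨?_, ?_⟩
  · intro z hz
    obtain ⟨x, hx, rfl⟩ := mem_map.mp hz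
    exact (hU x).mpr (hM.1 hx)
  · intro z hz hzM a ha' b hb'
    obtain ⟨z', rfl⟩ := σ.surjective z
    obtain ⟨x, hx, rfl⟩ := mem_map.mp ha'
    obtain ⟨y, hy, rfl⟩ := mem_map.mp hb'
    have hz' := (hU z').mp hz
    have hzM' : z' ∉ M := fun h => hzM (mem_map_of_mem _ h)
    show H.Adj (σ z') (σ x) ↔ H.Adj (σ z') (σ y)
    rw [ha z' hz' x (hM.1 hx), ha z' hz' y (hM.1 hy)]
    exact hM.2 z' hz' hzM' x hx y hy

theorem St.map {U' : Finset V} (σ : Equiv.Perm V) (hU : ∀ x, σ x ∈ U' ↔ x ∈ U)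
    (ha : ∀ x ∈ U, ∀ y ∈ U, (H.Adj (σ x) (σ y) ↔ G.Adj x y)) (hS : St G U c Q) :
    St H U' (fun x => c (σ.symm x)) Q := by
  constructor
  · intro x hx y hy hxy
    obtain ⟨x', rfl⟩ := σ.surjective x
    obtain ⟨y', rfl⟩ := σ.surjective y
    simp only [Equiv.symm_apply_apply] at hxy ⊢
    rw [ha x' ((hU x').mp hx) y' ((hU y').mp hy)]
    exact hS.adj x' ((hU x').mp hx) y' ((hU y').mp hy) hxy
  · intro k
    obtain ⟨x, hx, hk⟩ := hS.sur k
    exact ⟨σ x, (hU x).mpr hx, by rw [Equiv.symm_apply_apply]; exact hk⟩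

variable {π : V → Equiv.Perm V}

theorem hypo_symm (hH : Hypo G H π) : Hypo H G (fun v => (π v).symm) := by
  constructor
  · intro v
    rw [Equiv.symm_apply_eq, hH.fix]
  · intro v x y hx hy
    have h1 : (π v).symm x ≠ v := fun h => hx (by rw [← (π v).apply_symm_apply x, h, hH.fix])
    have h2 : (π v).symm y ≠ v := fun h => hy (by rw [← (π v).apply_symm_apply y, h, hH.fix])
    have := hH.adj v _ _ h1 h2
    rw [Equiv.apply_symm_apply, Equiv.apply_symm_apply] at this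
    exact this.symm

theorem nonIso_symm (h : NonIso G H) : NonIso H G := by
  rintro ⟨σ, hσ⟩
  apply h
  refine ⟨σ.symm, fun x y => ?_⟩
  have := hσ (σ.symm x) (σ.symm y)
  rw [Equiv.apply_symm_apply, Equiv.apply_symm_apply] at this
  exact this.symm

theorem er_iff (hH : Hypo G H π) (v x : V) : π v x ∈ univ.erase v ↔ x ∈ univ.erase v := by
  rw [mem_erase, mem_erase]
  constructor
  · rintro ⟨h, _⟩
    exact ⟨fun e => h (by rw [e, hH.fix]), mem_univ _⟩
  · rintro ⟨h, _⟩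
    exact ⟨fun e => h ((π v).injective (by rw [e, hH.fix])), mem_univ _⟩

theorem er_adj (hH : Hypo G H π) (v : V) : ∀ x ∈ univ.erase v, ∀ y ∈ univ.erase v,
    (H.Adj (π v x) (π v y) ↔ G.Adj x y) := by
  intro x hx y hy
  exact hH.adj v x y (mem_erase.mp hx).1 (mem_erase.mp hy).1

end Pool.Agent.Run7.h766.MD
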