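import Pool.Agent.Run7.h766.MD.Tuples

set_option autoImplicit false
set_option linter.unusedSectionVars false

/-!
# The number of automorphisms of the quotient
-/

namespace Pool.Agent.Run7.h766.MD

open Finset Classical
open Pool.Agent.H234RC (Hypo NonIso Reconstructible)

variable {V K : Type} [Fintype V] [Fintype K]
variable {G H : SimpleGraph V} {c c' : V → K} {Q : SimpleGraph K} {π : V → Equiv.Perm V}

/-- the automorphisms of the quotient -/
noncomputable def AF (Q : SimpleGraph K) : Finset (Equiv.Perm K) := univ.filter (fun α => Au Q α)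

/-- the indicator of a match -/
noncomputable def mi (G : SimpleGraph V) (c : V → K) (τ : K → TY V) (α : Equiv.Perm K) (k : K) : ℤ :=
  if ty (fb c (α k)) G = τ k then 1 else 0

theorem NN_prod (Q : SimpleGraph K) (G : SimpleGraph V) (c : V → K) (S : Finset K)
    (τ : K → TY V) : (NN Q G c S τ : ℤ) = ∑ α ∈ AF Q, ∏ k ∈ S, mi G c τ α k := by
  unfold NN AF mi
  simp only [prod_boole]
  rw [← filter_filter, card_filter]
  push_cast
  apply sum_congr rfl
  intro α _
  by_cases hm : mt G c S τ α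
  · rw [if_pos hm, if_pos (show ∀ i ∈ S, ty (fb c (α i)) G = τ i from hm)]
  · rw [if_neg hm, if_neg (show ¬ ∀ i ∈ S, ty (fb c (α i)) G = τ i from hm)]

theorem exact_eq (Q : SimpleGraph K) (G : SimpleGraph V) (c : V → K) (I Z : Finset K)
    (τ : K → TY V) (hZ : Z ⊆ I) :
    (((AF Q).filter (fun α => ∀ k ∈ I, (ty (fb c (α k)) G = τ k ↔ k ∈ Z))).card : ℤ) =
      ∑ T ∈ (I \ Z).powerset, (-1) ^ T.card * (NN Q G c (Z ∪ T) τ : ℤ) := by
  have h1 : ∀ α : Equiv.Perm K, (∏ k ∈ Z, mi G c τ α k) * ∏ k ∈ I \ Z, (1 + (- mi G c τ α k)) =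
      if (∀ k ∈ I, (ty (fb c (α k)) G = τ k ↔ k ∈ Z)) then 1 else 0 := by
    intro α
    by_cases h : ∀ k ∈ I, (ty (fb c (α k)) G = τ k ↔ k ∈ Z)
    · rw [if_pos h]
      have h2 : ∏ k ∈ Z, mi G c τ α k = 1 := by
        apply prod_eq_one
        intro k hk
        unfold mi
        rw [if_pos ((h k (hZ hk)).mpr hk)]
      have h3 : ∏ k ∈ I \ Z, (1 + (- mi G c τ α k)) = 1 := by
        apply prod_eq_one
        intro k hk
        obtain ⟨hk1, hk2⟩ := mem_sdiff.mp hk
        unfold mi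
        rw [if_neg (fun e => hk2 ((h k hk1).mp e))]
        ring
      rw [h2, h3, one_mul]
    · rw [if_neg h]
      push Not at h
      obtain ⟨k, hk, hk2⟩ := h
      by_cases hkZ : k ∈ Z
      · have h4 : ¬ ty (fb c (α k)) G = τ k := by
          rcases hk2 with ⟨_, h5⟩ | ⟨h5, _⟩
          · exact absurd hkZ h5
          · exact h5
        have h2 : ∏ k ∈ Z, mi G c τ α k = 0 := by
          apply prod_eq_zero hkZ
          unfold mi
          rw [if_neg h4]
        rw [h2, zero_mul]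
      · have h4 : ty (fb c (α k)) G = τ k := by
          rcases hk2 with ⟨h5, _⟩ | ⟨_, h5⟩
          · exact h5
          · exact absurd h5 hkZ
        have h3 : ∏ k ∈ I \ Z, (1 + (- mi G c τ α k)) = 0 := by
          apply prod_eq_zero (mem_sdiff.mpr ⟨hk, hkZ⟩)
          unfold mi
          rw [if_pos h4]
          ring
        rw [h3, mul_zero]
  have h2 : (((AF Q).filter (fun α => ∀ k ∈ I, (ty (fb c (α k)) G = τ k ↔ k ∈ Z))).card : ℤ) =
      ∑ α ∈ AF Q, (∏ k ∈ Z, mi G c τ α k) * ∏ k ∈ I \ Z, (1 + (- mi G c τ α k)) := by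
    rw [card_filter]
    push_cast
    apply sum_congr rfl
    intro α _
    rw [h1 α]
  rw [h2]
  have h3 : ∀ T ∈ (I \ Z).powerset, (-1) ^ T.card * (NN Q G c (Z ∪ T) τ : ℤ) =
      ∑ α ∈ AF Q, (∏ k ∈ Z, mi G c τ α k) * ∏ k ∈ T, (- mi G c τ α k) := by
    intro T hT
    rw [NN_prod, mul_sum]
    apply sum_congr rfl
    intro α _
    have hd : Disjoint Z T := by
      rw [disjoint_right]
      intro k hk
      exact (mem_sdiff.mp (mem_powerset.mp hT hk)).2
    rw [prod_union hd, prod_neg]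
    ring
  rw [sum_congr rfl h3, sum_comm]
  apply sum_congr rfl
  intro α _
  rw [← mul_sum, prod_one_add]

theorem many_aut (hQ : Pr Q) (hH : Hypo G H π) (hS : St G univ c Q) (hS' : St H univ c' Q)
    (hN : NonIso G H) (hb : ∀ k, (fb c k).card < (WW c).card) (hne : (NT c).Nonempty) :
    2 ^ ((NT c).card - 1) * (univ.filter (fun α : Equiv.Perm K => Au Q α ∧
      ∀ k, ty (fb c (α k)) G = ty (fb c k) G)).card ≤ (AF Q).card := by
  obtain ⟨k0, hk0⟩ := hne
  have hWne : (WW c).Nonempty := by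
    obtain ⟨x, hx⟩ := card_pos.mp (by have := (mem_NT k0).mp hk0; omega : 0 < (fb c k0).card)
    exact ⟨x, fb_sub_WW k0 ((mem_NT k0).mp hk0) hx⟩
  have hb' := hb_of hQ hH hS hS' hWne hb
  have hNT := NT_eq hQ hH hS hS' hb hb'
  set I := NT c with hI
  set τ : K → TY V := fun k => ty (fb c k) G with hτ
  set γ := NN Q G c I τ with hγ
  have hγ1 : (univ.filter (fun α : Equiv.Perm K => Au Q α ∧
      ∀ k, ty (fb c (α k)) G = ty (fb c k) G)).card ≤ γ := by
    apply card_le_card
    intro α hα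
    rw [mem_filter] at hα ⊢
    exact ⟨mem_univ _, hα.2.1, fun k _ => hα.2.2 k⟩
  have hH0 : NN Q H c' I τ = 0 := by
    unfold NN
    rw [card_eq_zero, filter_eq_empty_iff]
    rintro α _ ⟨hA, hm⟩
    have h1 : I.image α = NT c' := by
      apply eq_of_subset_of_card_le
      · intro k hk
        obtain ⟨i, hi, rfl⟩ := mem_image.mp hk
        rw [mem_NT]
        have := congrArg sz (hm i hi)
        rw [sz_ty, hτ, sz_ty] at this
        rw [this]
        exact (mem_NT i).mp hi
      · rw [card_image_of_injective _ α.injective, hNT]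
    refine iso_of hS hS' α hA (fun k => ?_) hN
    by_cases hk : k ∈ I
    · exact (hm k hk).symm
    · have h2 : α k ∉ NT c' := by
        rw [← h1]
        intro h
        obtain ⟨i, hi, hik⟩ := mem_image.mp h
        exact hk (α.injective hik ▸ hi)
      rw [mem_NT] at hk h2
      have h3 := fb_pos hS k
      have h4 := fb_pos hS' (α k)
      exact ty_single _ _ _ _ (by omega) (by omega)
  have hdiff : ∀ Z ⊆ I, Odd (I \ Z).card → γ ≤
      ((AF Q).filter (fun α => ∀ k ∈ I, (ty (fb c' (α k)) H = τ k ↔ k ∈ Z))).card := by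
    intro Z hZ hodd
    have e1 := exact_eq Q G c I Z τ hZ
    have e2 := exact_eq Q H c' I Z τ hZ
    have hIm : I \ Z ∈ (I \ Z).powerset := mem_powerset_self _
    rw [← add_sum_erase _ _ hIm] at e1 e2
    have hun : Z ∪ (I \ Z) = I := union_sdiff_of_subset hZ
    rw [hun, hodd.neg_one_pow] at e1 e2
    have e3 : ∑ T ∈ (I \ Z).powerset.erase (I \ Z), (-1) ^ T.card * (NN Q G c (Z ∪ T) τ : ℤ) =
        ∑ T ∈ (I \ Z).powerset.erase (I \ Z), (-1) ^ T.card * (NN Q H c' (Z ∪ T) τ : ℤ) := by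
      apply sum_congr rfl
      intro T hT
      obtain ⟨hT1, hT2⟩ := mem_erase.mp hT
      rw [mem_powerset] at hT2
      have hss : Z ∪ T ⊂ I := by
        rw [ssubset_iff_subset_ne]
        refine ⟨union_subset hZ (hT2.trans sdiff_subset), fun e => hT1 ?_⟩
        apply subset_antisymm hT2
        intro k hk
        obtain ⟨hk1, hk2⟩ := mem_sdiff.mp hk
        rw [← e] at hk1
        rcases mem_union.mp hk1 with h | h
        · exact absurd h hk2
        · exact h
      have hlt := card_lt_card hss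
      rw [NN_eq hQ hH hS hS' (Z ∪ T) hlt (by rw [← hNT]; exact hlt) (WW c).card τ]
      · intro k hk
        rw [hτ, sz_ty]
        exact (mem_NT k).mp (hss.1 hk)
      · omega
    rw [hH0] at e2
    have e4 : ((((AF Q).filter (fun α => ∀ k ∈ I, (ty (fb c' (α k)) H = τ k ↔ k ∈ Z))).card : ℕ) : ℤ) =
        (((AF Q).filter (fun α => ∀ k ∈ I, (ty (fb c (α k)) G = τ k ↔ k ∈ Z))).card : ℤ) + γ := by
      rw [e1, e2, e3, hγ]
      push_cast
      ring
    have e5 : ((AF Q).filter (fun α => ∀ k ∈ I, (ty (fb c' (α k)) H = τ k ↔ k ∈ Z))).card =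
        ((AF Q).filter (fun α => ∀ k ∈ I, (ty (fb c (α k)) G = τ k ↔ k ∈ Z))).card + γ := by
      exact_mod_cast e4
    omega
  -- the sets with an odd complement
  let φ : Finset K → Finset K := fun Y => if Odd (I \ Y).card then Y else insert k0 Y
  have hφ : ∀ Y ∈ (I.erase k0).powerset, φ Y ⊆ I ∧ Odd (I \ φ Y).card ∧ (φ Y).erase k0 = Y := by
    intro Y hY
    rw [mem_powerset] at hY
    have hk : k0 ∉ Y := fun h => (mem_erase.mp (hY h)).1 rfl
    have hYI : Y ⊆ I := hY.trans (erase_subset _ _)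
    by_cases h : Odd (I \ Y).card
    · have e : φ Y = Y := if_pos h
      rw [e]
      exact ⟨hYI, h, erase_eq_of_notMem hk⟩
    · have e : φ Y = insert k0 Y := if_neg h
      rw [e]
      refine ⟨insert_subset hk0 hYI, ?_, erase_insert hk⟩
      have h5 : I \ insert k0 Y = (I \ Y).erase k0 := by
        ext k
        rw [mem_sdiff, mem_insert, mem_erase, mem_sdiff]
        tauto
      rw [h5, card_erase_of_mem (mem_sdiff.mpr ⟨hk0, hk⟩)]
      have h6 : 0 < (I \ Y).card := card_pos.mpr ⟨k0, mem_sdiff.mpr ⟨hk0, hk⟩⟩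
      rw [Nat.not_odd_iff_even] at h
      exact Nat.Even.sub_odd h6 h odd_one
  let E : Finset K → Finset (Equiv.Perm K) := fun Y =>
    (AF Q).filter (fun α => ∀ k ∈ I, (ty (fb c' (α k)) H = τ k ↔ k ∈ φ Y))
  have hdis : ∀ Y ∈ (I.erase k0).powerset, ∀ Y' ∈ (I.erase k0).powerset, Y ≠ Y' →
      Disjoint (E Y) (E Y') := by
    intro Y hY Y' hY' hne
    rw [disjoint_left]
    intro α hα hα'
    apply hne
    have h1 := hφ Y hY
    have h2 := hφ Y' hY'
    rw [← h1.2.2, ← h2.2.2]
    congr 1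
    ext k
    constructor
    · intro hk
      exact ((mem_filter.mp hα').2 k (h1.1 hk)).mp (((mem_filter.mp hα).2 k (h1.1 hk)).mpr hk)
    · intro hk
      exact ((mem_filter.mp hα).2 k (h2.1 hk)).mp (((mem_filter.mp hα').2 k (h2.1 hk)).mpr hk)
  have h7 : ((I.erase k0).powerset.biUnion E).card ≤ (AF Q).card := by
    apply card_le_card
    intro α hα
    obtain ⟨Y, _, hY⟩ := mem_biUnion.mp hα
    exact (mem_filter.mp hY).1
  rw [card_biUnion hdis] at h7
  have h8 : ∑ _Y ∈ (I.erase k0).powerset, γ ≤ ∑ Y ∈ (I.erase k0).powerset, (E Y).card := by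
    apply sum_le_sum
    intro Y hY
    exact hdiff _ (hφ Y hY).1 (hφ Y hY).2.1
  rw [sum_const, card_powerset, card_erase_of_mem hk0, smul_eq_mul] at h8
  exact ((Nat.mul_le_mul_left _ hγ1).trans h8).trans h7

end Pool.Agent.Run7.h766.MD
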