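import Pool.Agent.Run7.h766.MD.Types

set_option autoImplicit false
set_option linter.unusedSectionVars false

/-!
# The two cases: at least two nontrivial classes, one nontrivial class
-/

namespace Pool.Agent.Run7.h766.MD

open Finset Classical
open Pool.Agent.H234RC (Hypo NonIso Reconstructible)
open Pool.Agent.TH87.RVC (mem_iff_of_maps)
open Pool.Agent.TH87.RVE
open Pool.Agent.R694.RC (flip comp_two)

variable {V K : Type} [Fintype V] [Fintype K]
variable {G H : SimpleGraph V} {c c' : V → K} {Q : SimpleGraph K} {π : V → Equiv.Perm V}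

theorem iso_of (hS : St G univ c Q) (hS' : St H univ c' Q) (α : Equiv.Perm K) (hα : Au Q α)
    (h : ∀ k, ty (fb c k) G = ty (fb c' (α k)) H) : ¬ NonIso G H := by
  have h1 : ∀ k, sI (fb c k, G) (fb c' (α k), H) := fun k => (ty_eq _ _ _ _).mp (h k)
  choose σ h2 h3 using h1
  let τ : V → V := fun x => σ (c x) x
  have hc : ∀ x, c' (τ x) = α (c x) := fun x =>
    (mem_fb _ _).mp ((h2 (c x) x).mpr ((mem_fb _ _).mpr rfl))
  have hinj : Function.Injective τ := by
    intro x y hxy
    have hcc : c x = c y := α.injective (by rw [← hc x, ← hc y, hxy])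
    have : σ (c x) x = σ (c x) y := by
      have h5 : σ (c x) x = σ (c y) y := hxy
      rw [h5, hcc]
    exact (σ (c x)).injective this
  intro hN
  apply hN
  refine ⟨Equiv.ofBijective τ (Finite.injective_iff_bijective.mp hinj), fun x y => ?_⟩
  rw [Equiv.ofBijective_apply, Equiv.ofBijective_apply]
  by_cases hcc : c x = c y
  · have h5 := h3 (c x) x ((mem_fb _ _).mpr rfl) y ((mem_fb _ _).mpr hcc.symm)
    have h6 : τ y = σ (c x) y := by
      show σ (c y) y = _
      rw [hcc]
    rw [h6]
    exact h5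
  · rw [hS'.adj _ (mem_univ _) _ (mem_univ _) (by rw [hc, hc]; exact fun e => hcc (α.injective e)),
      hc, hc, hα, hS.adj x (mem_univ _) y (mem_univ _) hcc]

theorem nt_perm (c' : V → K) (α : Equiv.Perm K) (t : TY V) :
    nt H c' t = (univ.filter (fun k => ty (fb c' (α k)) H = t)).card := by
  unfold nt
  symm
  apply card_equiv α
  intro k
  rw [mem_filter, mem_filter]
  simp

theorem card_fe' (p : K → Prop) [DecidablePred p] (i : K) :
    (univ.filter p).card = ((univ.erase i).filter p).card + if p i then 1 else 0 := by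
  conv_lhs => rw [← insert_erase (mem_univ i), filter_insert]
  split_ifs with h
  · rw [card_insert_of_notMem (by simp)]
  · simp

theorem card_fe2 (p : K → Prop) [DecidablePred p] (i j : K) (hij : j ≠ i) :
    (univ.filter p).card = (((univ.erase i).erase j).filter p).card + (if p j then 1 else 0) +
      if p i then 1 else 0 := by
  rw [card_fe' p i]
  congr 1
  conv_lhs => rw [← insert_erase (mem_erase.mpr ⟨hij, mem_univ j⟩ : j ∈ univ.erase i), filter_insert]
  split_ifs with h
  · rw [card_insert_of_notMem (by simp)]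
  · simp

theorem step (hQ : Pr Q) (hH : Hypo G H π) (hS : St G univ c Q) (hS' : St H univ c' Q)
    (hN : NonIso G H) (hb : ∀ k, (fb c k).card < (WW c).card) (x : V) (hx : x ∈ WW c) :
    ∃ α : Equiv.Perm K, Au Q α ∧ (∀ k, k ≠ c x → (fb c k).card ≤ (fb c' (α k)).card) ∧
      (fb c' (α (c x))).card < (fb c (c x)).card ∧
      ∃ i', ty (fb c i') G = ty ((fb c (c x)).erase x) G := by
  have hb' := hb_of hQ hH hS hS' ⟨x, hx⟩ hb
  obtain ⟨α, hA, hα⟩ := alpha hQ hH hS hS' x hx
  have htag := fun k => card_tag hH x α hα k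
  set i := c x with hi
  set j := c' x with hj
  have hi2 : 2 ≤ (fb c i).card := two_le_fb x hx
  have hxi : x ∈ fb c i := (mem_fb _ _).mpr rfl
  have hxj : x ∈ fb c' j := (mem_fb _ _).mpr rfl
  have hni : ∀ k, k ≠ i → x ∉ fb c k := fun k hk h => hk ((mem_fb _ _).mp h).symm
  have hnj : ∀ k, k ≠ j → x ∉ fb c' k := fun k hk h => hk ((mem_fb _ _).mp h).symm
  have hmatch : ∀ k, k ≠ i → α k ≠ j → ty (fb c k) G = ty (fb c' (α k)) H := by
    intro k hk hk2
    have := htag k
    rwa [erase_eq_of_notMem (hni k hk), erase_eq_of_notMem (hnj _ hk2)] at this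
  have hnt := fun t ht => nt_eq' hQ hH hS hS' hb hb' t ht
  have hsz : sz (ty (fb c i) G) = (fb c i).card := sz_ty _ _
  by_cases hαi : α i = j
  · exfalso
    have hm : ∀ k, k ≠ i → ty (fb c k) G = ty (fb c' (α k)) H := fun k hk =>
      hmatch k hk (fun e => hk (α.injective (by rw [e, hαi])))
    have h1 := hnt (ty (fb c i) G) (by rw [hsz]; exact hi2)
    rw [nt_perm c' α] at h1
    unfold nt at h1
    rw [card_fe' _ i, card_fe' _ i, if_pos rfl] at h1
    have h2 : ((univ.erase i).filter (fun k => ty (fb c k) G = ty (fb c i) G)).card =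
        ((univ.erase i).filter (fun k => ty (fb c' (α k)) H = ty (fb c i) G)).card := by
      congr 1
      apply filter_congr
      intro k hk
      rw [hm k (mem_erase.mp hk).1]
    rw [h2] at h1
    have h3 : ty (fb c' (α i)) H = ty (fb c i) G := by
      by_contra hc
      rw [if_neg hc] at h1
      omega
    refine iso_of hS hS' α hA (fun k => ?_) hN
    by_cases hk : k = i
    · rw [hk, h3]
    · exact hm k hk
  · set i' := α.symm j with hi'
    have hαi' : α i' = j := by rw [hi', Equiv.apply_symm_apply]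
    have hii : i' ≠ i := fun e => hαi (by rw [← e, hαi'])
    have hm : ∀ k, k ≠ i → k ≠ i' → ty (fb c k) G = ty (fb c' (α k)) H := fun k hk hk2 =>
      hmatch k hk (fun e => hk2 (α.injective (by rw [e, hαi'])))
    have e1 : ty ((fb c i).erase x) G = ty (fb c' (α i)) H := by
      have := htag i
      rwa [erase_eq_of_notMem (hnj _ hαi)] at this
    have e2 : ty (fb c i') G = ty ((fb c' j).erase x) H := by
      have := htag i'
      rwa [erase_eq_of_notMem (hni _ hii), hαi'] at this
    have s1 : (fb c i).card - 1 = (fb c' (α i)).card := by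
      have := congrArg sz e1
      rwa [sz_ty, sz_ty, card_erase_of_mem hxi] at this
    have s2 : (fb c i').card = (fb c' j).card - 1 := by
      have := congrArg sz e2
      rwa [sz_ty, sz_ty, card_erase_of_mem hxj] at this
    have hj1 : 0 < (fb c' j).card := card_pos.mpr ⟨x, hxj⟩
    -- the count of the types
    have h2 : ∀ t, (((univ.erase i).erase i').filter (fun k => ty (fb c k) G = t)).card =
        (((univ.erase i).erase i').filter (fun k => ty (fb c' (α k)) H = t)).card := by
      intro t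
      congr 1
      apply filter_congr
      intro k hk
      rw [hm k (mem_erase.mp (mem_erase.mp hk).2).1 (mem_erase.mp hk).1]
    have h1 := hnt (ty (fb c i) G) (by rw [hsz]; exact hi2)
    rw [nt_perm c' α] at h1
    unfold nt at h1
    rw [card_fe2 _ i i' hii, card_fe2 _ i i' hii, if_pos rfl, h2, hαi'] at h1
    have n1 : ty (fb c' (α i)) H ≠ ty (fb c i) G := by
      intro e
      have := congrArg sz e
      rw [sz_ty, sz_ty] at this
      omega
    rw [if_neg n1] at h1
    have h3 : ty (fb c' j) H = ty (fb c i) G := by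
      by_contra hc
      rw [if_neg hc] at h1
      omega
    have s3 : (fb c' j).card = (fb c i).card := by
      have := congrArg sz h3
      rwa [sz_ty, sz_ty] at this
    refine ⟨α, hA, ?_, by omega, i', ?_⟩
    · intro k hk
      by_cases hk2 : k = i'
      · rw [hk2, hαi', s2]
        omega
      · have := congrArg sz (hm k hk hk2)
        rw [sz_ty, sz_ty] at this
        exact this.le
    · by_cases h5 : 2 ≤ (fb c i).card - 1
      · have h6 := hnt (ty ((fb c i).erase x) G) (by rw [sz_ty, card_erase_of_mem hxi]; exact h5)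
        rw [nt_perm c' α] at h6
        unfold nt at h6
        rw [card_fe2 _ i i' hii, card_fe2 _ i i' hii, h2, hαi', if_pos e1.symm] at h6
        have n2 : ty (fb c i) G ≠ ty ((fb c i).erase x) G := by
          intro e
          have := congrArg sz e
          rw [sz_ty, sz_ty, card_erase_of_mem hxi] at this
          omega
        have n3 : ty (fb c' j) H ≠ ty ((fb c i).erase x) G := by
          rw [h3]
          exact n2
        rw [if_neg n2, if_neg n3] at h6
        by_contra hc
        rw [if_neg hc] at h6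
        omega
      · apply ty_single
        · omega
        · rw [card_erase_of_mem hxi]
          omega

/-! ### One nontrivial class -/

/-- hypomorphic induced subgraphs with a constant cut are isomorphic -/
theorem cut_case (hH : Hypo G H π) (M A : Finset V) (h3 : 3 ≤ M.card)
    (hm : ∀ v ∈ M, ∀ x ∈ M, π v x ∈ M) (hA : A ⊆ M) (hA1 : A.Nonempty) (hA2 : (M \ A).Nonempty)
    (P : Prop) (hP : ∀ a ∈ A, ∀ b ∈ M \ A, (G.Adj a b ↔ P)) : ty M G = ty M H := by
  have hM : ∀ i j : ℕ, (fun _ _ => P) i j → (fun _ _ => P) j i := fun _ _ h => h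
  have hcross : ∀ x ∈ A, ∀ y ∈ M \ A, ¬ (flip G (fun _ => 0) (fun _ _ => P) hM).Adj x y := by
    rintro x hx y hy ⟨_, h⟩
    exact h (hP x hx y hy)
  have hcomps : 2 ≤ (comps (flip G (fun _ => 0) (fun _ _ => P) hM) M).card := by
    have h1 := comps_union (flip G (fun _ => 0) (fun _ _ => P) hM) A (M \ A) hcross
    rw [union_sdiff_of_subset hA] at h1
    rw [h1, card_union_of_disjoint (comps_disjoint _ _ _ disjoint_sdiff)]
    obtain ⟨x, hx⟩ := hA1
    obtain ⟨y, hy⟩ := hA2
    have h2 := card_pos.mpr ⟨_, comp_mem_comps (flip G (fun _ => 0) (fun _ _ => P) hM) A x hx⟩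
    have h4 := card_pos.mpr ⟨_, comp_mem_comps (flip G (fun _ => 0) (fun _ _ => P) hM) (M \ A) y hy⟩
    omega
  obtain ⟨σ, hσ1, hσ2, _⟩ := comp_two (G := flip G (fun _ => 0) (fun _ _ => P) hM)
    (H := flip H (fun _ => 0) (fun _ _ => P) hM) (π := π) M h3 hH.fix hm (by
      intro v hv x hx y hy hxv hyv
      show (π v x ≠ π v y ∧ ¬ (H.Adj (π v x) (π v y) ↔ P)) ↔ (x ≠ y ∧ ¬ (G.Adj x y ↔ P))
      rw [hH.adj v x y hxv hyv, (π v).injective.ne_iff])
    (fun _ => ∅) (fun _ _ _ _ => rfl) hcomps
  rw [ty_eq]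
  refine ⟨σ, fun x => mem_iff_of_maps σ M hσ1 x, fun x hx y hy => ?_⟩
  show H.Adj (σ x) (σ y) ↔ G.Adj x y
  by_cases hxy : x = y
  · rw [hxy]
    exact ⟨fun h => absurd h H.irrefl, fun h => absurd h G.irrefl⟩
  · have h1 : (σ x ≠ σ y ∧ ¬ (H.Adj (σ x) (σ y) ↔ P)) ↔ (x ≠ y ∧ ¬ (G.Adj x y ↔ P)) :=
      hσ2 x hx y hy
    rw [σ.injective.ne_iff] at h1
    by_cases h3 : H.Adj (σ x) (σ y) <;> by_cases h4 : G.Adj x y <;>
      by_cases h5 : P <;> simp only [h3, h4, h5, hxy, ne_eq, not_false_eq_true,
        true_and, not_true_eq_false, iff_self, iff_true, iff_false] at h1 ⊢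

theorem sum_fb (c : V → K) : ∑ k, (fb c k).card = Fintype.card V := by
  rw [← card_univ, card_eq_sum_card_fiberwise (f := c) (t := univ) (fun x _ => mem_univ _)]
  rfl

theorem fb_pos (hS : St G univ c Q) (k : K) : 1 ≤ (fb c k).card := by
  obtain ⟨x, _, hx⟩ := hS.sur k
  exact card_pos.mpr ⟨x, (mem_fb _ _).mpr hx⟩

/-- one nontrivial class with at least `|Q| - 1` vertices -/
theorem one_class (hQ : Pr Q) (hH : Hypo G H π) (hS : St G univ c Q) (hS' : St H univ c' Q)
    (hn : Fintype.card K + 3 ≤ Fintype.card V)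
    (i : K) (hi : (WW c).card ≤ (fb c i).card) (hbig : Fintype.card K ≤ (WW c).card + 1) :
    ¬ NonIso G H := by
  have hW := WW_eq hQ hH hS hS'
  have hne : (WW c).Nonempty := by
    by_contra hcon
    rw [not_nonempty_iff_eq_empty] at hcon
    have h1 : ∀ k, (fb c k).card ≤ 1 := by
      intro k
      by_contra h
      obtain ⟨x, hx⟩ := card_pos.mp (by omega : 0 < (fb c k).card)
      have := fb_sub_WW (c := c) k (by omega) hx
      rw [hcon] at this
      exact absurd this (notMem_empty _)
    have h2 := sum_fb c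
    have h3 : ∑ k, (fb c k).card ≤ ∑ _k : K, 1 := sum_le_sum (fun k _ => h1 k)
    rw [sum_const, card_univ, smul_eq_mul, mul_one] at h3
    omega
  obtain ⟨x0, hx0⟩ := hne
  have hi2 : 2 ≤ (fb c i).card := by
    have h1 := two_le_fb x0 hx0
    have h2 := card_le_card (fb_sub_WW (c := c) (c x0) h1)
    omega
  have hfi : fb c i = WW c := eq_of_subset_of_card_le (fb_sub_WW i hi2) hi
  have hothers : ∀ k, k ≠ i → (fb c k).card = 1 := by
    intro k hk
    have h1 := fb_pos hS k
    by_contra h
    obtain ⟨x, hx⟩ := card_pos.mp (by omega : 0 < (fb c k).card)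
    have h2 := fb_sub_WW (c := c) k (by omega) hx
    rw [← hfi, mem_fb] at h2
    rw [mem_fb] at hx
    exact hk (by rw [← hx, h2])
  obtain ⟨j, hj⟩ : ∃ j, (WW c').card ≤ (fb c' j).card := by
    by_contra hcon
    push Not at hcon
    have h1 := hb_of hQ (hypo_symm hH) hS' hS (by rw [← hW]; exact ⟨x0, hx0⟩) hcon i
    omega
  have hW2 : 2 ≤ (WW c).card := by rw [← hfi]; exact hi2
  have hj2 : 2 ≤ (fb c' j).card := by rw [← hW] at hj; omega
  have hfj : fb c' j = WW c' := eq_of_subset_of_card_le (fb_sub_WW j hj2) hj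
  have hothers' : ∀ k, k ≠ j → (fb c' k).card = 1 := by
    intro k hk
    have h1 := fb_pos hS' k
    by_contra h
    obtain ⟨x, hx⟩ := card_pos.mp (by omega : 0 < (fb c' k).card)
    have h2 := fb_sub_WW (c := c') k (by omega) hx
    rw [← hfj, mem_fb] at h2
    rw [mem_fb] at hx
    exact hk (by rw [← hx, h2])
  have hcardV : Fintype.card V + 1 = (WW c).card + Fintype.card K := by
    have h1 := sum_fb c
    rw [← add_sum_erase univ _ (mem_univ i), sum_congr rfl (fun k hk => hothers k
      (mem_erase.mp hk).1), sum_const, smul_eq_mul, mul_one, card_erase_of_mem (mem_univ _),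
      card_univ, hfi] at h1
    have := hQ.1
    omega
  have hm4 : 4 ≤ (WW c).card := by omega
  have hαi : ∀ x ∈ WW c, ∀ α : Equiv.Perm K, (∀ z, z ≠ x → c' (π x z) = α (c z)) → α i = j := by
    intro x hx α hα
    by_contra hne
    have h1 := congrArg sz (card_tag hH x α hα i)
    rw [sz_ty, sz_ty, hfi, card_erase_of_mem hx] at h1
    have h2 := card_le_card (erase_subset x (fb c' (α i)))
    rw [hothers' _ hne] at h2
    omega
  have hmaps : ∀ v ∈ WW c, ∀ x ∈ WW c, π v x ∈ WW c := by
    intro v hv x hx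
    by_cases hxv : x = v
    · rw [hxv, hH.fix]
      exact hv
    · obtain ⟨α, _, hα⟩ := alpha hQ hH hS hS' v hv
      have h1 := hαi v hv α hα
      rw [hW, ← hfj, mem_fb, hα x hxv]
      rw [← hfi, mem_fb] at hx
      rw [hx, h1]
  intro hN
  -- the induced subgraphs are not isomorphic
  have hty : ty (WW c) G ≠ ty (WW c) H := by
    intro hc
    obtain ⟨α, hA, hα⟩ := alpha hQ hH hS hS' x0 hx0
    have h1 := hαi x0 hx0 α hα
    refine iso_of hS hS' α hA (fun k => ?_) hN
    by_cases hk : k = i
    · rw [hk, h1, hfi, hfj, ← hW, hc]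
    · exact ty_single _ _ _ _ (hothers k hk) (hothers' _ (fun e => hk (α.injective (by rw [e, h1]))))
  -- a vertex outside
  obtain ⟨k1, _, hk1, _, _⟩ := exists_two hQ.1 i
  obtain ⟨v, _, hv⟩ := hS.sur k1
  have hvW : v ∉ WW c := by
    rw [← hfi, mem_fb, hv]
    exact hk1
  have hvm : ∀ x, π v x ∈ univ.erase v ↔ x ∈ univ.erase v := er_iff hH v
  set M := WW c with hMdef
  have hMG : Md G univ M := by
    have := fib_md hS i
    have e : fib univ c i = M := by
      rw [← hfi]
      rfl
    rwa [e] at this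
  have hMH : Md H univ M := by
    have := fib_md hS' j
    have e : fib univ c' j = M := by
      rw [hW, ← hfj]
      rfl
    rwa [e] at this
  set B := M.map (π v).toEmbedding with hB
  have hBcard : B.card = M.card := card_map _
  have hBmod : Md H (univ.erase v) B := by
    have h1 : Md G (univ.erase v) M := by
      have := hMG.erase v
      rwa [erase_eq_of_notMem hvW] at this
    exact h1.map (π v) (er_iff hH v) (er_adj hH v)
  have hMmod : Md H (univ.erase v) M := by
    have := hMH.erase v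
    rwa [erase_eq_of_notMem hvW] at this
  have hBM : B ≠ M := by
    intro e
    apply hty
    rw [ty_eq]
    refine ⟨π v, fun x => ?_, fun x hx y hy => ?_⟩
    · show π v x ∈ M ↔ x ∈ M
      have h5 : π v x ∈ B ↔ x ∈ M := mem_map' (π v).toEmbedding
      rw [e] at h5
      exact h5
    · exact hH.adj v x y (fun e => hvW (e ▸ hx)) (fun e => hvW (e ▸ hy))
  have hint : (B ∩ M).Nonempty := by
    rw [← card_pos]
    have h1 := card_union_add_card_inter B M
    have h2 := card_le_card (union_subset hBmod.1 hMmod.1)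
    rw [card_erase_of_mem (mem_univ _), card_univ] at h2
    omega
  have hBM1 : (B \ M).Nonempty := by
    rw [sdiff_nonempty]
    intro h
    exact hBM (eq_of_subset_of_card_le h hBcard.ge)
  have hBM2 : (M \ B).Nonempty := by
    rw [sdiff_nonempty]
    intro h
    exact hBM (eq_of_subset_of_card_le h hBcard.le).symm
  obtain ⟨b0, hb0⟩ := hBM2
  obtain ⟨a0, ha0⟩ := hBM1
  rw [mem_sdiff] at hb0 ha0
  -- the cut
  have hcut : ∀ a ∈ B \ M, ∀ b ∈ B ∩ M, (H.Adj a b ↔ H.Adj a0 b0) := by
    intro a ha b hb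
    rw [mem_sdiff] at ha
    rw [mem_inter] at hb
    rw [hMmod.2 a (hBmod.1 ha.1) ha.2 b hb.2 b0 hb0.1, H.adj_comm,
      hBmod.2 b0 (hMmod.1 hb0.1) hb0.2 a ha.1 a0 ha0.1, H.adj_comm]
  apply hty
  apply cut_case hH M (M.filter (fun x => π v x ∈ B \ M)) (by omega) hmaps (filter_subset _ _)
    _ _ (H.Adj a0 b0)
  · intro a ha b hb
    have ha1 := mem_filter.mp ha
    have hb1 := mem_sdiff.mp hb
    have hbB : π v b ∈ B := mem_map_of_mem _ hb1.1
    have hbM : π v b ∈ M := by
      by_contra h
      exact hb1.2 (mem_filter.mpr ⟨hb1.1, mem_sdiff.mpr ⟨hbB, h⟩⟩)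
    rw [← hH.adj v a b (fun e => hvW (e ▸ ha1.1)) (fun e => hvW (e ▸ hb1.1))]
    exact hcut _ ha1.2 _ (mem_inter.mpr ⟨hbB, hbM⟩)
  · obtain ⟨z, hz, hza⟩ := mem_map.mp ha0.1
    exact ⟨z, mem_filter.mpr ⟨hz, by
      have : π v z = a0 := hza
      rw [this]
      exact mem_sdiff.mpr ha0⟩⟩
  · obtain ⟨w, hw⟩ := hint
    obtain ⟨hwB, hwM⟩ := mem_inter.mp hw
    obtain ⟨z, hz, hzw⟩ := mem_map.mp hwB
    refine ⟨z, mem_sdiff.mpr ⟨hz, fun h => ?_⟩⟩
    have h1 := (mem_sdiff.mp (mem_filter.mp h).2).2
    have : π v z = w := hzw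
    rw [this] at h1
    exact h1 hwM

end Pool.Agent.Run7.h766.MD
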