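import Pool.Agent.Run7.h766.MD.Step

set_option autoImplicit false
set_option linter.unusedSectionVars false

/-!
# Counting partial matchings of the classes
-/

namespace Pool.Agent.Run7.h766.MD

open Finset Classical
open Pool.Agent.H234RC (Hypo NonIso Reconstructible)

variable {V K : Type} [Fintype V] [Fintype K]
variable {G H : SimpleGraph V} {c c' : V → K} {Q : SimpleGraph K} {π : V → Equiv.Perm V}

/-- the nontrivial classes -/
noncomputable def NT (c : V → K) : Finset K := univ.filter (fun k => 2 ≤ (fb c k).card)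

theorem mem_NT (k : K) : k ∈ NT c ↔ 2 ≤ (fb c k).card := by
  unfold NT
  rw [mem_filter]
  exact ⟨fun h => h.2, fun h => ⟨mem_univ _, h⟩⟩

/-- `α` matches the types `τ` on `S` -/
def mt (G : SimpleGraph V) (c : V → K) (S : Finset K) (τ : K → TY V) (α : Equiv.Perm K) : Prop :=
  ∀ k ∈ S, ty (fb c (α k)) G = τ k

/-- the number of the automorphisms of the quotient which match the types -/
noncomputable def NN (Q : SimpleGraph K) (G : SimpleGraph V) (c : V → K) (S : Finset K)
    (τ : K → TY V) : ℕ :=
  (univ.filter (fun α : Equiv.Perm K => Au Q α ∧ mt G c S τ α)).card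

theorem fb_disj (c : V → K) (i j : K) (h : i ≠ j) : Disjoint (fb c i) (fb c j) := by
  rw [disjoint_left]
  intro x hx hy
  rw [mem_fb] at hx hy
  exact h (by rw [← hx, hy])

theorem point2 (G : SimpleGraph V) (c : V → K) (S : Finset K) (τ : K → TY V)
    (hτ : ∀ k ∈ S, 2 ≤ sz (τ k)) (α : Equiv.Perm K) :
    ((WW c).filter (fun x => ∀ k ∈ S, ty ((fb c (α k)).erase x) G = τ k)).card =
      (if mt G c S τ α then (WW c).card - ∑ k ∈ S, sz (τ k) else 0) +
        ∑ k0 ∈ S, if mt G c (S.erase k0) τ α then gg (τ k0) (ty (fb c (α k0)) G) else 0 := by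
  set A := (WW c).filter (fun x => ∀ k ∈ S, ty ((fb c (α k)).erase x) G = τ k) with hA
  have h1 : A.card = (A.filter (fun x => ¬ ∃ k ∈ S, x ∈ fb c (α k))).card +
      (A.filter (fun x => ∃ k ∈ S, x ∈ fb c (α k))).card := by
    rw [add_comm]
    exact (card_filter_add_card_filter_not _).symm
  have h2 : (A.filter (fun x => ∃ k ∈ S, x ∈ fb c (α k))).card =
      ∑ k0 ∈ S, (A.filter (fun x => x ∈ fb c (α k0))).card := by
    rw [← card_biUnion]
    · congr 1
      ext x
      rw [mem_filter, mem_biUnion]
      constructor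
      · rintro ⟨h, k, hk, hx⟩
        exact ⟨k, hk, mem_filter.mpr ⟨h, hx⟩⟩
      · rintro ⟨k, hk, hx⟩
        exact ⟨(mem_filter.mp hx).1, k, hk, (mem_filter.mp hx).2⟩
    · intro i _ j _ hij
      rw [Function.onFun, disjoint_left]
      intro x hx hy
      exact disjoint_left.mp (fb_disj c (α i) (α j) (fun e => hij (α.injective e)))
        (mem_filter.mp hx).2 (mem_filter.mp hy).2
  rw [h1, h2]
  congr 1
  · by_cases hm : mt G c S τ α
    · rw [if_pos hm]
      have hcard : ∀ k ∈ S, (fb c (α k)).card = sz (τ k) := fun k hk => by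
        rw [← hm k hk, sz_ty]
      have hsub : S.biUnion (fun k => fb c (α k)) ⊆ WW c := by
        intro x hx
        obtain ⟨k, hk, hx⟩ := mem_biUnion.mp hx
        exact fb_sub_WW (c := c) (α k) (by rw [hcard k hk]; exact hτ k hk) hx
      have h3 : (S.biUnion (fun k => fb c (α k))).card = ∑ k ∈ S, sz (τ k) := by
        rw [card_biUnion]
        · exact sum_congr rfl hcard
        · intro i _ j _ hij
          exact fb_disj c (α i) (α j) (fun e => hij (α.injective e))
      rw [← h3, ← card_sdiff_of_subset hsub]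
      congr 1
      ext x
      rw [mem_filter, hA, mem_filter, mem_sdiff, mem_biUnion]
      constructor
      · rintro ⟨⟨hx, _⟩, hn⟩
        exact ⟨hx, hn⟩
      · rintro ⟨hx, hn⟩
        refine ⟨⟨hx, fun k hk => ?_⟩, hn⟩
        rw [erase_eq_of_notMem (fun h => hn ⟨k, hk, h⟩)]
        exact hm k hk
    · rw [if_neg hm, card_eq_zero, filter_eq_empty_iff]
      intro x hx hn
      apply hm
      intro k hk
      have := (mem_filter.mp hx).2 k hk
      rwa [erase_eq_of_notMem (fun h => hn ⟨k, hk, h⟩)] at this
  · apply sum_congr rfl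
    intro k0 hk0
    by_cases hm : mt G c (S.erase k0) τ α
    · rw [if_pos hm, ← gg_eq]
      congr 1
      ext x
      rw [mem_filter, hA, mem_filter, mem_filter]
      constructor
      · rintro ⟨⟨_, h⟩, hx⟩
        exact ⟨hx, h k0 hk0⟩
      · rintro ⟨hx, h⟩
        have hW : x ∈ WW c := by
          have h4 := congrArg sz h
          rw [sz_ty, card_erase_of_mem hx] at h4
          have := hτ k0 hk0
          exact fb_sub_WW (c := c) (α k0) (by omega) hx
        refine ⟨⟨hW, fun k hk => ?_⟩, hx⟩
        by_cases hkk : k = k0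
        · rw [hkk]
          exact h
        · have hxk : x ∉ fb c (α k) := fun h' =>
            disjoint_left.mp (fb_disj c (α k) (α k0) (fun e => hkk (α.injective e))) h' hx
          rw [erase_eq_of_notMem hxk]
          exact hm k (mem_erase.mpr ⟨hkk, hk⟩)
    · rw [if_neg hm, card_eq_zero, filter_eq_empty_iff]
      intro x hx hxk
      apply hm
      intro k hk
      obtain ⟨hkk, hkS⟩ := mem_erase.mp hk
      have h4 := (mem_filter.mp hx).2 k hkS
      have hxk' : x ∉ fb c (α k) := fun h' =>
        disjoint_left.mp (fb_disj c (α k) (α k0) (fun e => hkk (α.injective e))) h' hxk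
      rwa [erase_eq_of_notMem hxk'] at h4

theorem total2 (Q : SimpleGraph K) (G : SimpleGraph V) (c : V → K) (S : Finset K) (τ : K → TY V)
    (hτ : ∀ k ∈ S, 2 ≤ sz (τ k)) (A : Finset (TY V)) (hA : ∀ k, ty (fb c k) G ∈ A) :
    ∑ x ∈ WW c, (univ.filter (fun α : Equiv.Perm K => Au Q α ∧
        ∀ k ∈ S, ty ((fb c (α k)).erase x) G = τ k)).card =
      NN Q G c S τ * ((WW c).card - ∑ k ∈ S, sz (τ k)) +
        ∑ k0 ∈ S, ∑ s ∈ A, NN Q G c S (Function.update τ k0 s) * gg (τ k0) s := by
  have h1 : ∑ x ∈ WW c, (univ.filter (fun α : Equiv.Perm K => Au Q α ∧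
        ∀ k ∈ S, ty ((fb c (α k)).erase x) G = τ k)).card =
      ∑ α ∈ univ.filter (fun α : Equiv.Perm K => Au Q α),
        ((WW c).filter (fun x => ∀ k ∈ S, ty ((fb c (α k)).erase x) G = τ k)).card := by
    simp only [← filter_filter, card_filter]
    rw [sum_comm]
  rw [h1, sum_congr rfl (fun α _ => point2 G c S τ hτ α), sum_add_distrib]
  congr 1
  · rw [← sum_filter, sum_const, smul_eq_mul, filter_filter]
    rfl
  · rw [sum_comm]
    apply sum_congr rfl
    intro k0 hk0
    rw [← sum_filter, filter_filter]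
    rw [← sum_fiberwise_of_maps_to (t := A) (g := fun α : Equiv.Perm K => ty (fb c (α k0)) G)
      (fun α _ => hA _)]
    apply sum_congr rfl
    intro s _
    unfold NN
    rw [← smul_eq_mul, ← sum_const]
    have h5 : (univ.filter (fun α : Equiv.Perm K => Au Q α ∧ mt G c (S.erase k0) τ α)).filter
        (fun α => ty (fb c (α k0)) G = s) =
        univ.filter (fun α : Equiv.Perm K => Au Q α ∧ mt G c S (Function.update τ k0 s) α) := by
      ext α
      rw [mem_filter, mem_filter, mem_filter]
      constructor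
      · rintro ⟨⟨_, h2, h3⟩, h4⟩
        refine ⟨mem_univ _, h2, fun k hk => ?_⟩
        by_cases hkk : k = k0
        · rw [hkk, Function.update_self]
          exact h4
        · rw [Function.update_of_ne hkk]
          exact h3 k (mem_erase.mpr ⟨hkk, hk⟩)
      · rintro ⟨_, h2, h3⟩
        refine ⟨⟨mem_univ _, h2, fun k hk => ?_⟩, ?_⟩
        · have := h3 k (mem_erase.mp hk).2
          rwa [Function.update_of_ne (mem_erase.mp hk).1] at this
        · have := h3 k0 hk0
          rwa [Function.update_self] at this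
    rw [h5]
    apply sum_congr rfl
    intro α hα
    have := (mem_filter.mp hα).2.2 k0 hk0
    rw [Function.update_self] at this
    rw [this]

theorem NN_zero (Q : SimpleGraph K) (G : SimpleGraph V) (c : V → K) (S : Finset K) (τ : K → TY V)
    (hτ : ∀ k ∈ S, 2 ≤ sz (τ k)) (hS : S.card < (NT c).card)
    (hbig : (WW c).card ≤ ∑ k ∈ S, sz (τ k)) : NN Q G c S τ = 0 := by
  unfold NN
  rw [card_eq_zero, filter_eq_empty_iff]
  rintro α _ ⟨_, hm⟩
  have hcard : ∀ k ∈ S, (fb c (α k)).card = sz (τ k) := fun k hk => by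
    rw [← hm k hk, sz_ty]
  have h3 : (S.biUnion (fun k => fb c (α k))).card = ∑ k ∈ S, sz (τ k) := by
    rw [card_biUnion]
    · exact sum_congr rfl hcard
    · intro i _ j _ hij
      exact fb_disj c (α i) (α j) (fun e => hij (α.injective e))
  obtain ⟨k1, hk1, hk1'⟩ : ∃ k1 ∈ NT c, k1 ∉ S.image α := by
    by_contra hcon
    push Not at hcon
    have := card_le_card (fun k hk => hcon k hk : NT c ⊆ S.image α)
    have := this.trans card_image_le
    omega
  have hk2 := (mem_NT k1).mp hk1
  have hdis : Disjoint (S.biUnion (fun k => fb c (α k))) (fb c k1) := by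
    rw [disjoint_biUnion_left]
    intro k hk
    exact fb_disj c _ _ (fun e => hk1' (mem_image.mpr ⟨k, hk, e⟩))
  have hsub : S.biUnion (fun k => fb c (α k)) ⊆ WW c := by
    intro x hx
    obtain ⟨k, hk, hx⟩ := mem_biUnion.mp hx
    exact fb_sub_WW (c := c) (α k) (by rw [hcard k hk]; exact hτ k hk) hx
  have h4 := card_le_card (union_subset hsub (fb_sub_WW k1 hk2))
  rw [card_union_of_disjoint hdis, h3] at h4
  omega

theorem Au_mul (α β : Equiv.Perm K) (hα : Au Q α) (hβ : Au Q β) : Au Q (α * β) := by
  intro i j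
  rw [Equiv.Perm.mul_apply, Equiv.Perm.mul_apply, hα, hβ]

theorem Au_mul_iff (α β : Equiv.Perm K) (hα : Au Q α) : Au Q (α * β) ↔ Au Q β := by
  constructor
  · intro h i j
    have := h i j
    rwa [Equiv.Perm.mul_apply, Equiv.Perm.mul_apply, hα] at this
  · exact Au_mul α β hα

theorem NN_eq (hQ : Pr Q) (hH : Hypo G H π) (hS : St G univ c Q) (hS' : St H univ c' Q)
    (S : Finset K) (h1 : S.card < (NT c).card) (h2 : S.card < (NT c').card) :
    ∀ (d : ℕ) (τ : K → TY V), (∀ k ∈ S, 2 ≤ sz (τ k)) → (WW c).card ≤ ∑ k ∈ S, sz (τ k) + d →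
      NN Q G c S τ = NN Q H c' S τ := by
  have hW := WW_eq hQ hH hS hS'
  intro d
  induction d with
  | zero =>
    intro τ hτ hd
    rw [NN_zero Q G c S τ hτ h1 (by omega), NN_zero Q H c' S τ hτ h2 (by rw [← hW]; omega)]
  | succ d ih =>
    intro τ hτ hd
    by_cases hlt : (WW c).card ≤ ∑ k ∈ S, sz (τ k) + d
    · exact ih τ hτ hlt
    · let A : Finset (TY V) := (univ.image (fun k => ty (fb c k) G)) ∪
          (univ.image (fun k => ty (fb c' k) H))
      have e1 := total2 Q G c S τ hτ A
        (fun k => mem_union_left _ (mem_image_of_mem _ (mem_univ _)))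
      have e2 := total2 Q H c' S τ hτ A
        (fun k => mem_union_right _ (mem_image_of_mem _ (mem_univ _)))
      have e3 : ∑ x ∈ WW c, (univ.filter (fun α : Equiv.Perm K => Au Q α ∧
            ∀ k ∈ S, ty ((fb c (α k)).erase x) G = τ k)).card =
          ∑ x ∈ WW c', (univ.filter (fun α : Equiv.Perm K => Au Q α ∧
            ∀ k ∈ S, ty ((fb c' (α k)).erase x) H = τ k)).card := by
        rw [← hW]
        apply sum_congr rfl
        intro x hx
        obtain ⟨β, hβ, hα⟩ := alpha hQ hH hS hS' x hx
        apply card_equiv (Equiv.mulLeft β)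
        intro α
        rw [mem_filter, mem_filter, Equiv.coe_mulLeft, Au_mul_iff β α hβ]
        constructor
        · rintro ⟨_, h3, h4⟩
          refine ⟨mem_univ _, h3, fun k hk => ?_⟩
          rw [Equiv.Perm.mul_apply, ← card_tag hH x β hα]
          exact h4 k hk
        · rintro ⟨_, h3, h4⟩
          refine ⟨mem_univ _, h3, fun k hk => ?_⟩
          rw [card_tag hH x β hα]
          exact h4 k hk
      have e4 : ∑ k0 ∈ S, ∑ s ∈ A, NN Q G c S (Function.update τ k0 s) * gg (τ k0) s =
          ∑ k0 ∈ S, ∑ s ∈ A, NN Q H c' S (Function.update τ k0 s) * gg (τ k0) s := by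
        apply sum_congr rfl
        intro k0 hk0
        apply sum_congr rfl
        intro s _
        by_cases hs : sz s = sz (τ k0) + 1
        · rw [ih]
          · intro k hk
            by_cases hkk : k = k0
            · rw [hkk, Function.update_self, hs]
              have := hτ k0 hk0
              omega
            · rw [Function.update_of_ne hkk]
              exact hτ k hk
          · have h5 : ∑ k ∈ S, sz (Function.update τ k0 s k) = ∑ k ∈ S, sz (τ k) + 1 := by
              rw [← add_sum_erase S _ hk0, ← add_sum_erase S (fun k => sz (τ k)) hk0,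
                Function.update_self, hs]
              rw [sum_congr rfl (fun k hk => by rw [Function.update_of_ne (mem_erase.mp hk).1])]
              ring
            omega
        · rw [gg_zero _ s hs, mul_zero, mul_zero]
      rw [e3, e2, e4, ← hW] at e1
      have e5 : NN Q H c' S τ * ((WW c).card - ∑ k ∈ S, sz (τ k)) =
          NN Q G c S τ * ((WW c).card - ∑ k ∈ S, sz (τ k)) := by omega
      exact (Nat.eq_of_mul_eq_mul_right (by omega) e5).symm

/-- the numbers of nontrivial classes are the same -/
theorem NT_eq (hQ : Pr Q) (hH : Hypo G H π) (hS : St G univ c Q) (hS' : St H univ c' Q)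
    (hb : ∀ k, (fb c k).card < (WW c).card) (hb' : ∀ k, (fb c' k).card < (WW c').card) :
    (NT c).card = (NT c').card := by
  let A : Finset (TY V) := (univ.image (fun k => ty (fb c k) G)) ∪
          (univ.image (fun k => ty (fb c' k) H))
  have key : ∀ (G : SimpleGraph V) (c : V → K), (∀ k, ty (fb c k) G ∈ A) →
      (NT c).card = ∑ s ∈ A, if 2 ≤ sz s then nt G c s else 0 := by
    intro G c hA
    rw [card_eq_sum_card_fiberwise (f := fun k => ty (fb c k) G) (t := A) (fun k _ => hA k)]
    apply sum_congr rfl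
    intro s _
    by_cases hs : 2 ≤ sz s
    · rw [if_pos hs]
      unfold nt
      congr 1
      ext k
      rw [mem_filter, mem_filter, mem_NT]
      constructor
      · rintro ⟨_, h⟩
        exact ⟨mem_univ _, h⟩
      · rintro ⟨_, h⟩
        exact ⟨by rw [← sz_ty (fb c k) G, h]; exact hs, h⟩
    · rw [if_neg hs, card_eq_zero, filter_eq_empty_iff]
      intro k hk h
      rw [mem_NT, ← sz_ty (fb c k) G, h] at hk
      exact hs hk
  rw [key G c (fun k => mem_union_left _ (mem_image_of_mem _ (mem_univ _))),
    key H c' (fun k => mem_union_right _ (mem_image_of_mem _ (mem_univ _)))]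
  apply sum_congr rfl
  intro s _
  by_cases hs : 2 ≤ sz s
  · rw [if_pos hs, if_pos hs, nt_eq' hQ hH hS hS' hb hb' s hs]
  · rw [if_neg hs, if_neg hs]

end Pool.Agent.Run7.h766.MD
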