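import Pool.Agent.Run7.h766.MD.Alpha

set_option autoImplicit false
set_option linter.unusedSectionVars false

/-!
# The isomorphism types of the classes are reconstructible
-/

namespace Pool.Agent.Run7.h766.MD

open Finset Classical
open Pool.Agent.H234RC (Hypo NonIso Reconstructible)

variable {V K : Type} [Fintype V] [Fintype K]
variable {G H : SimpleGraph V} {c c' : V → K} {Q : SimpleGraph K} {π : V → Equiv.Perm V}

/-- the number of the classes of type `t` -/
noncomputable def nt (G : SimpleGraph V) (c : V → K) (t : TY V) : ℕ :=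
  (univ.filter (fun k => ty (fb c k) G = t)).card

theorem point (G : SimpleGraph V) (c : V → K) (t : TY V) (ht : 2 ≤ sz t) (k : K) :
    ((WW c).filter (fun x => ty ((fb c k).erase x) G = t)).card =
      (if ty (fb c k) G = t then (WW c).card - sz t else 0) + gg t (ty (fb c k) G) := by
  by_cases h : ty (fb c k) G = t
  · have hk : (fb c k).card = sz t := by rw [← h, sz_ty]
    have hsub := fb_sub_WW (c := c) k (by omega)
    rw [if_pos h, gg_zero t _ (by rw [h]; omega), add_zero, ← hk, ← card_sdiff_of_subset hsub]
    congr 1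
    ext x
    rw [mem_filter, mem_sdiff]
    constructor
    · rintro ⟨h1, h2⟩
      refine ⟨h1, fun h3 => ?_⟩
      have h4 := congrArg sz h2
      rw [sz_ty, card_erase_of_mem h3] at h4
      omega
    · rintro ⟨h1, h2⟩
      exact ⟨h1, by rw [erase_eq_of_notMem h2]; exact h⟩
  · rw [if_neg h, zero_add, ← gg_eq]
    congr 1
    ext x
    rw [mem_filter, mem_filter]
    constructor
    · rintro ⟨h1, h2⟩
      refine ⟨?_, h2⟩
      by_contra h3
      rw [erase_eq_of_notMem h3] at h2
      exact h h2
    · rintro ⟨h1, h2⟩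
      refine ⟨?_, h2⟩
      have h4 := congrArg sz h2
      rw [sz_ty, card_erase_of_mem h1] at h4
      exact fb_sub_WW (c := c) k (by omega) h1

theorem total (G : SimpleGraph V) (c : V → K) (t : TY V) (ht : 2 ≤ sz t) :
    ∑ x ∈ WW c, (univ.filter (fun k => ty ((fb c k).erase x) G = t)).card =
      nt G c t * ((WW c).card - sz t) + ∑ k, gg t (ty (fb c k) G) := by
  have h1 : ∑ x ∈ WW c, (univ.filter (fun k => ty ((fb c k).erase x) G = t)).card =
      ∑ k : K, ((WW c).filter (fun x => ty ((fb c k).erase x) G = t)).card := by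
    simp only [card_filter]
    exact sum_comm
  rw [h1, sum_congr rfl (fun k _ => point G c t ht k), sum_add_distrib, ← sum_filter, sum_const,
    smul_eq_mul]
  rfl

theorem sum_gg (G : SimpleGraph V) (c : V → K) (t : TY V) (A : Finset (TY V))
    (hA : ∀ k, ty (fb c k) G ∈ A) :
    ∑ k, gg t (ty (fb c k) G) = ∑ s ∈ A, nt G c s * gg t s := by
  rw [← sum_fiberwise_of_maps_to (s := (univ : Finset K)) (t := A)
    (g := fun k => ty (fb c k) G) (fun k _ => hA k)]
  apply sum_congr rfl
  intro s _
  unfold nt
  rw [← smul_eq_mul, ← sum_const]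
  apply sum_congr rfl
  intro k hk
  rw [(mem_filter.mp hk).2]

theorem nt_eq (hQ : Pr Q) (hH : Hypo G H π) (hS : St G univ c Q) (hS' : St H univ c' Q)
    (hb : ∀ k, (fb c k).card < (WW c).card) (hb' : ∀ k, (fb c' k).card < (WW c').card) :
    ∀ (d : ℕ) (t : TY V), 2 ≤ sz t → (WW c).card ≤ sz t + d → nt G c t = nt H c' t := by
  have hW := WW_eq hQ hH hS hS'
  intro d
  induction d with
  | zero =>
    intro t _ ht
    have h1 : nt G c t = 0 := by
      unfold nt
      rw [card_eq_zero, filter_eq_empty_iff]
      intro k _ h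
      have := hb k
      rw [← sz_ty (fb c k) G, h] at this
      omega
    have h2 : nt H c' t = 0 := by
      unfold nt
      rw [card_eq_zero, filter_eq_empty_iff]
      intro k _ h
      have := hb' k
      rw [← sz_ty (fb c' k) H, h, ← hW] at this
      omega
    rw [h1, h2]
  | succ d ih =>
    intro t ht htd
    by_cases hlt : (WW c).card ≤ sz t + d
    · exact ih t ht hlt
    · have e1 := total G c t ht
      have e2 := total H c' t ht
      have e3 : ∑ x ∈ WW c, (univ.filter (fun k => ty ((fb c k).erase x) G = t)).card =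
          ∑ x ∈ WW c', (univ.filter (fun k => ty ((fb c' k).erase x) H = t)).card := by
        rw [← hW]
        apply sum_congr rfl
        intro x hx
        obtain ⟨α, _, hα⟩ := alpha hQ hH hS hS' x hx
        apply card_equiv α
        intro k
        rw [mem_filter, mem_filter, card_tag hH x α hα k]
        simp
      have e4 : ∑ k, gg t (ty (fb c k) G) = ∑ k, gg t (ty (fb c' k) H) := by
        let A : Finset (TY V) := (univ.image (fun k => ty (fb c k) G)) ∪
          (univ.image (fun k => ty (fb c' k) H))
        rw [sum_gg G c t A (fun k => mem_union_left _ (mem_image_of_mem _ (mem_univ _))),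
          sum_gg H c' t A (fun k => mem_union_right _ (mem_image_of_mem _ (mem_univ _)))]
        apply sum_congr rfl
        intro s _
        by_cases hs : sz s = sz t + 1
        · rw [ih s (by omega) (by omega)]
        · rw [gg_zero t s hs, mul_zero, mul_zero]
      rw [e3, e2, e4, ← hW] at e1
      have e5 : nt H c' t * ((WW c).card - sz t) = nt G c t * ((WW c).card - sz t) := by omega
      exact (Nat.eq_of_mul_eq_mul_right (by omega) e5).symm

theorem nt_eq' (hQ : Pr Q) (hH : Hypo G H π) (hS : St G univ c Q) (hS' : St H univ c' Q)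
    (hb : ∀ k, (fb c k).card < (WW c).card) (hb' : ∀ k, (fb c' k).card < (WW c').card)
    (t : TY V) (ht : 2 ≤ sz t) : nt G c t = nt H c' t :=
  nt_eq hQ hH hS hS' hb hb' (WW c).card t ht (by omega)

/-- the second bound follows from the first -/
theorem hb_of (hQ : Pr Q) (hH : Hypo G H π) (hS : St G univ c Q) (hS' : St H univ c' Q)
    (hne : (WW c).Nonempty) (hb : ∀ k, (fb c k).card < (WW c).card) :
    ∀ k, (fb c' k).card < (WW c').card := by
  intro k
  by_contra hcon
  push Not at hcon
  have hW := WW_eq hQ hH hS hS'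
  obtain ⟨x, hx⟩ := hne
  have h2 : 2 ≤ (WW c').card := by
    rw [← hW]
    exact (two_le_fb x hx).trans (hb _).le
  have hsub := fb_sub_WW (c := c') k (by omega)
  have hfW : fb c' k = WW c' := eq_of_subset_of_card_le hsub hcon
  obtain ⟨α, _, hα⟩ := alpha hQ hH hS hS' x hx
  have h3 := congrArg sz (card_tag hH x α hα (α.symm k))
  rw [sz_ty, sz_ty, Equiv.apply_symm_apply, hfW, ← hW, card_erase_of_mem hx] at h3
  have h4 := hb (α.symm k)
  have h5 : x ∉ fb c (α.symm k) := by
    intro h
    rw [card_erase_of_mem h] at h3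
    have : 0 < (fb c (α.symm k)).card := card_pos.mpr ⟨x, h⟩
    omega
  rw [erase_eq_of_notMem h5] at h3
  have h6 : 2 ≤ (fb c (c x)).card := two_le_fb x hx
  have h7 : fb c (c x) ⊆ WW c := fb_sub_WW _ h6
  have h8 : (fb c (α.symm k)) ⊆ WW c ∨ (fb c (α.symm k)).card ≤ 1 := by
    by_cases h : 2 ≤ (fb c (α.symm k)).card
    · exact Or.inl (fb_sub_WW _ h)
    · right
      omega
  have hdis : Disjoint (fb c (α.symm k)) (fb c (c x)) := by
    rw [disjoint_left]
    intro z hz1 hz2
    rw [mem_fb] at hz1 hz2
    exact h5 ((mem_fb _ _).mpr (by rw [← hz2, hz1]))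
  rcases h8 with h8 | h8
  · have h9 := card_le_card (union_subset h8 h7)
    rw [card_union_of_disjoint hdis] at h9
    omega
  · have h9 : (WW c).card = 2 := by
      rw [← hW] at h2
      omega
    have h10 := hb (c x)
    omega

end Pool.Agent.Run7.h766.MD
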